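import Pool.Agent.BezHen.Topo

/-!
# Products of projections on lines, winding numbers (project CA, helper84)
-/

set_option autoImplicit false

open Matrix

noncomputable section

namespace Pool.Agent.L7h84.CA

variable {m : ℕ}

/-- `P` is the orthogonal projection onto a complex line of `ℂ^m`, that is, a point of the complex
projective space of dimension `m - 1` -/
def IsLine (P : Matrix (Fin m) (Fin m) ℂ) : Prop :=
  ∃ v : Fin m → ℂ, star v ⬝ᵥ v = 1 ∧ P = vecMulVec v (star v)

/-- the product `P 0 * ... * P n` -/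
def mp (P : ℕ → Matrix (Fin m) (Fin m) ℂ) : ℕ → Matrix (Fin m) (Fin m) ℂ
  | 0 => P 0
  | n + 1 => mp P n * P (n + 1)

theorem mp_congr {P Q : ℕ → Matrix (Fin m) (Fin m) ℂ} {n : ℕ} (h : ∀ i ≤ n, P i = Q i) :
    mp P n = mp Q n := by
  induction n with
  | zero => exact h 0 le_rfl
  | succ n ih => simp only [mp]; rw [ih fun i hi => h i (by omega), h (n + 1) le_rfl]

theorem mp_line (v : ℕ → Fin m → ℂ) (n : ℕ) :
    mp (fun i => vecMulVec (v i) (star (v i))) n =
      (∏ i ∈ Finset.range n, star (v i) ⬝ᵥ v (i + 1)) • vecMulVec (v 0) (star (v n)) := by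
  induction n with
  | zero => simp [mp]
  | succ n ih =>
    simp only [mp]
    rw [ih, Finset.prod_range_succ, Matrix.smul_mul, Matrix.vecMulVec_mul_vecMulVec]
    simp only [smul_smul, Matrix.vecMulVec_smul]

theorem trace_vec (v w : Fin m → ℂ) : trace (vecMulVec v (star w)) = star w ⬝ᵥ v := by
  simp [trace, vecMulVec, dotProduct, mul_comm]

theorem trace_mul_line {v w : Fin m → ℂ} :
    trace (vecMulVec v (star v) * vecMulVec w (star w)) =
      (star v ⬝ᵥ w) * (star w ⬝ᵥ v) := by
  rw [Matrix.vecMulVec_mul_vecMulVec, Matrix.vecMulVec_smul, trace_smul, trace_vec, smul_eq_mul]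

theorem line_idem {v : Fin m → ℂ} (hv : star v ⬝ᵥ v = 1) :
    vecMulVec v (star v) * vecMulVec v (star v) = vecMulVec v (star v) := by
  rw [Matrix.vecMulVec_mul_vecMulVec, hv]
  simp

/-- the trace of a closed product does not vanish -/
theorem trace_mp_ne {P : ℕ → Matrix (Fin m) (Fin m) ℂ} {n : ℕ} (hP : ∀ i, IsLine (P i))
    (h : ∀ i < n, trace (P i * P (i + 1)) ≠ 0) (h0 : P n = P 0) : trace (mp P n) ≠ 0 := by
  choose v hv hPv using hP
  have h1 : mp P n = mp (fun i => vecMulVec (v i) (star (v i))) n := mp_congr fun i _ => hPv i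
  rw [h1, mp_line, trace_smul, trace_vec, smul_eq_mul]
  refine mul_ne_zero (Finset.prod_ne_zero_iff.2 fun i hi => ?_) ?_
  · have := h i (Finset.mem_range.1 hi)
    rw [hPv i, hPv (i + 1), trace_mul_line] at this
    exact left_ne_zero_of_mul this
  · have h2 : trace (P n * P 0) = 1 := by
      rw [h0, hPv 0, line_idem (hv 0), trace_vec, hv 0]
    rw [hPv n, hPv 0, trace_mul_line] at h2
    have : (star (v n) ⬝ᵥ v 0) * (star (v 0) ⬝ᵥ v n) ≠ 0 := by rw [h2]; exact one_ne_zero
    exact left_ne_zero_of_mul this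

/-- the trace of a constant product -/
theorem trace_mp_const {P : Matrix (Fin m) (Fin m) ℂ} (hP : IsLine P) (n : ℕ) :
    trace (mp (fun _ => P) n) = 1 := by
  obtain ⟨v, hv, rfl⟩ := hP
  have : ∀ n, mp (fun _ => vecMulVec v (star v)) n = vecMulVec v (star v) := by
    intro n
    induction n with
    | zero => rfl
    | succ n ih => simp only [mp]; rw [ih, line_idem hv]
  rw [this, trace_vec, hv]

/-- the palindromic sequence -/
def pal (k : ℕ) (i : ℕ) : ℕ := if i ≤ k then i else 2 * k - i

theorem star_vec_mul {U : Matrix (Fin m) (Fin m) ℂ} (hU : U * Uᴴ = 1) {v : Fin m → ℂ} {l : ℂ}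
    (h : U *ᵥ v = l • v) (hl : l * star l = 1) (w : Fin m → ℂ) :
    vecMulVec w (star v) * U = l • vecMulVec w (star v) ∧
      vecMulVec w (star v) * Uᴴ = star l • vecMulVec w (star v) := by
  have hU' : Uᴴ * U = 1 := mul_eq_one_comm.1 hU
  have h1 : star v ᵥ* Uᴴ = star l • star v := by
    rw [← Matrix.star_mulVec, h, star_smul]
  have h2 : Uᴴ *ᵥ v = star l • v := by
    have : Uᴴ *ᵥ (U *ᵥ v) = v := by rw [Matrix.mulVec_mulVec, hU', Matrix.one_mulVec]
    rw [h, Matrix.mulVec_smul] at this
    calc Uᴴ *ᵥ v = (star l * l) • Uᴴ *ᵥ v := by rw [mul_comm (star l), hl, one_smul]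
      _ = star l • (l • Uᴴ *ᵥ v) := by rw [smul_smul]
      _ = star l • v := by rw [this]
  have h3 : star v ᵥ* U = l • star v := by
    have := congrArg star h2
    rw [Matrix.star_mulVec, star_smul, star_star, Matrix.conjTranspose_conjTranspose] at this
    exact this
  constructor
  · rw [Matrix.vecMulVec_mul, h3, Matrix.vecMulVec_smul]
  · rw [Matrix.vecMulVec_mul, h1, Matrix.vecMulVec_smul]

/-- the closed product along a path and its image under a unitary map -/
theorem trace_pal {P : ℕ → Matrix (Fin m) (Fin m) ℂ} (hP : ∀ i, IsLine (P i)) (k : ℕ)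
    (h : ∀ i < k, trace (P i * P (i + 1)) ≠ 0) {v w : Fin m → ℂ}
    (hv0 : P 0 = vecMulVec v (star v)) (hwk : P k = vecMulVec w (star w)) :
    ∃ β : ℂ, β ≠ 0 ∧ ∀ (U : Matrix (Fin m) (Fin m) ℂ) (l μ : ℂ), U * Uᴴ = 1 →
      l * star l = 1 → μ * star μ = 1 → U *ᵥ v = l • v → U *ᵥ w = μ • w →
      trace (mp (fun i => if i ≤ k then P i else U * P (2 * k - i) * Uᴴ) (2 * k)) =
        β * (μ * star l) := by
  have hPp : ∀ i, IsLine ((fun i => P (pal k i)) i) := fun i => hP _
  refine ⟨trace (mp (fun i => P (pal k i)) (2 * k)), ?_, ?_⟩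
  · refine trace_mp_ne hPp ?_ ?_
    · intro i hi
      simp only [pal]
      rcases lt_trichotomy i k with h1 | h1 | h1
      · rw [if_pos h1.le, if_pos (by omega)]
        exact h i h1
      · subst h1
        rw [if_pos le_rfl, if_neg (by omega), trace_mul_comm]
        have h2 := h (2 * i - (i + 1)) (by omega)
        have h3 : 2 * i - (i + 1) + 1 = i := by omega
        rwa [h3] at h2
      · rw [if_neg (by omega), if_neg (by omega), trace_mul_comm]
        have h2 := h (2 * k - (i + 1)) (by omega)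
        have h3 : 2 * k - (i + 1) + 1 = 2 * k - i := by omega
        rwa [h3] at h2
    · simp only [pal]
      rcases Nat.eq_zero_or_pos k with h1 | h1
      · subst h1; simp
      · rw [if_neg (by omega), if_pos (by omega)]
        simp
  · intro U l μ hU hl hμ hv' hw'
    have hU' : Uᴴ * U = 1 := mul_eq_one_comm.1 hU
    -- the product up to `k` is a multiple of `u w*`
    have hk : ∃ u : Fin m → ℂ, mp P k = vecMulVec u (star w) := by
      rcases Nat.eq_zero_or_pos k with h1 | h1
      · subst h1
        exact ⟨w, hwk⟩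
      · obtain ⟨j, rfl⟩ : ∃ j, k = j + 1 := ⟨k - 1, by omega⟩
        refine ⟨mp P j *ᵥ w, ?_⟩
        simp only [mp]
        rw [hwk, Matrix.mul_vecMulVec]
    obtain ⟨u, hu⟩ := hk
    have hkU : mp P k * U = μ • mp P k := by
      rw [hu]
      exact (star_vec_mul hU hw' hμ u).1
    have key : ∀ j, j ≤ k → mp (fun i => if i ≤ k then P i else U * P (2 * k - i) * Uᴴ) (k + j) =
        μ • mp (fun i => P (pal k i)) (k + j) * Uᴴ := by
      intro j
      induction j with
      | zero =>
        intro _
        have e1 : mp (fun i => if i ≤ k then P i else U * P (2 * k - i) * Uᴴ) (k + 0) = mp P k :=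
          mp_congr fun i hi => if_pos (by omega)
        have e2 : mp (fun i => P (pal k i)) (k + 0) = mp P k :=
          mp_congr fun i hi => by simp only [pal]; rw [if_pos (by omega)]
        rw [e1, e2, ← hkU, Matrix.mul_assoc, hU, Matrix.mul_one]
      | succ j ih =>
        intro hj
        have e0 : k + (j + 1) = (k + j) + 1 := by ring
        rw [e0]
        simp only [mp]
        rw [ih (by omega), if_neg (by omega)]
        have e3 : pal k (k + j + 1) = 2 * k - (k + j + 1) := if_neg (by omega)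
        rw [e3]
        simp only [Matrix.smul_mul, Matrix.mul_assoc]
        rw [← Matrix.mul_assoc Uᴴ U, hU', Matrix.one_mul]
    have h2 := key k le_rfl
    rw [← two_mul] at h2
    rw [h2]
    -- the palindromic product is a multiple of `v v*`
    have hk2 : ∃ u : Fin m → ℂ, mp (fun i => P (pal k i)) (2 * k) = vecMulVec u (star v) := by
      rcases Nat.eq_zero_or_pos k with h1 | h1
      · subst h1
        exact ⟨v, by simp [mp, pal, hv0]⟩
      · obtain ⟨j, hj⟩ : ∃ j, 2 * k = j + 1 := ⟨2 * k - 1, by omega⟩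
        rw [hj]
        refine ⟨mp (fun i => P (pal k i)) j *ᵥ v, ?_⟩
        simp only [mp]
        have : pal k (j + 1) = 0 := by
          simp only [pal]
          rw [if_neg (by omega)]
          omega
        rw [this, hv0, Matrix.mul_vecMulVec]
    obtain ⟨u', hu'⟩ := hk2
    rw [hu', Matrix.smul_mul, (star_vec_mul hU hv' hl u').2, trace_smul, trace_smul]
    simp only [smul_eq_mul]
    ring

/-- winding numbers are homotopy invariant -/
theorem winding (g : ℝ × ℝ → ℂ) (hg : Continuous g) (h0 : ∀ p, g p ≠ 0)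
    (hper : ∀ t θ : ℝ, g (t, θ + 2 * Real.pi) = g (t, θ)) (a : ℤ)
    (c0 c1 : ℂ) (hc0 : ∀ θ : ℝ, g (0, θ) = c0)
    (hc1 : ∀ θ : ℝ, g (1, θ) = c1 * Complex.exp (a * (θ * Complex.I))) : a = 0 := by
  obtain ⟨f, hf, hfe⟩ := Pool.Agent.BezHen.exists_log g hg h0
  have key : ∀ F : ℝ × ℝ → ℂ, Continuous F → (∀ p, Complex.exp (F p) = 1) → ∀ p q, F p = F q := by
    intro F hF hFe p q
    have h1 : ∀ p, ∃ n : ℤ, F p = n * (2 * Real.pi * Complex.I) := fun p =>
      Complex.exp_eq_one_iff.mp (hFe p)
    choose n hn using h1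
    have hcont : Continuous (fun p => ((n p : ℤ) : ℝ)) := by
      have : (fun p => ((n p : ℤ) : ℝ)) = fun p => ((F p) / (2 * Real.pi * Complex.I)).re := by
        funext p
        have h2 : (2 * Real.pi * Complex.I : ℂ) ≠ 0 := Complex.two_pi_I_ne_zero
        rw [hn p, mul_div_assoc, div_self h2, mul_one]
        simp
      rw [this]
      exact Complex.continuous_re.comp (hF.div_const _)
    have hcontZ : Continuous n := by
      rw [continuous_def]
      intro s _
      have hemb := Int.isClosedEmbedding_coe_real.isInducing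
      have : Continuous n := hemb.continuous_iff.mpr hcont
      exact (this.isOpen_preimage s (isOpen_discrete s))
    have := PreconnectedSpace.constant (α := ℝ × ℝ) inferInstance hcontZ (x := p) (y := q)
    rw [hn p, hn q, this]
  have hA := key (fun p => f (p.1, p.2 + 2 * Real.pi) - f (p.1, p.2)) (by fun_prop) (by
    intro p
    rw [Complex.exp_sub, hfe, hfe, hper]
    exact div_self (h0 _))
  have hB := key (fun p => f (0, p.2) - f (0, 0)) (by fun_prop) (by
    intro p
    rw [Complex.exp_sub, hfe, hfe, hc0, hc0]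
    exact div_self (by rw [← hc0 0]; exact h0 _))
  have hc1' : c1 ≠ 0 := by
    intro h
    have := hc1 0
    rw [h, zero_mul] at this
    exact h0 _ this
  have hC := key (fun p => f (1, p.2) - a * (p.2 * Complex.I) - f (1, 0)) (by fun_prop) (by
    intro p
    rw [Complex.exp_sub, Complex.exp_sub, hfe, hfe, hc1, hc1]
    simp only [Complex.ofReal_zero, zero_mul, mul_zero, Complex.exp_zero, mul_one]
    rw [mul_div_assoc, div_self (Complex.exp_ne_zero _), mul_one, div_self hc1'])
  have a1 := hA (0, 0) (1, 0)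
  have b1 := hB (0, 2 * Real.pi) (0, 0)
  have c1' := hC (0, 2 * Real.pi) (0, 0)
  simp only [zero_add, sub_self, Complex.ofReal_zero, zero_mul, mul_zero, sub_zero] at a1 b1 c1'
  rw [b1] at a1
  have h2 : f (1, 2 * Real.pi) - f (1, 0) = 0 := a1.symm
  have h3 : (a : ℂ) * (((2 * Real.pi : ℝ) : ℂ) * Complex.I) = 0 := by
    linear_combination h2 - c1'
  have h4 : (((2 * Real.pi : ℝ) : ℂ) * Complex.I) ≠ 0 := by
    refine mul_ne_zero ?_ Complex.I_ne_zero
    exact_mod_cast (by positivity : (2 * Real.pi : ℝ) ≠ 0)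
  have h5 : (a : ℂ) = 0 := by
    rcases mul_eq_zero.1 h3 with h | h
    · exact h
    · exact absurd h h4
  exact_mod_cast h5

end Pool.Agent.L7h84.CA
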