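import Pool.Agent.L7h84.CA.Iso

/-!
# Semi-invariant functions with a given weight (project CA, helper84)
-/

set_option autoImplicit false

open Set Topology MeasureTheory

noncomputable section

namespace Pool.Agent.L7h84.CA

theorem coe_cont : Continuous (fun z : Circle => (z : ℂ)) := continuous_subtype_val

theorem exp_zpow (t : ℝ) (b : ℤ) : ((Circle.exp t : Circle) : ℂ) ^ b = Complex.exp (b * (t * Complex.I)) := by
  rw [Circle.coe_exp, ← Complex.exp_int_mul]

/-- a function of weight `b` which does not vanish at `x₀` -/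
theorem bump {X : Type} [MetricSpace X] [CompactSpace X] [MulAction Circle X]
    [ContinuousSMul Circle X] (x₀ : X) (b : ℤ)
    (hst : ∀ z : Circle, z • x₀ = x₀ → (z : ℂ) ^ b = 1) :
    ∃ c : X → ℂ, Continuous c ∧ (∀ (w : Circle) (x : X), c (w • x) = (w : ℂ) ^ b * c x) ∧
      c x₀ ≠ 0 := by
  -- the radius
  obtain ⟨r, hr, hrC⟩ : ∃ r > 0, ∀ z : Circle, dist (z • x₀) x₀ < r → 1 / 2 < ((z : ℂ) ^ (-b)).re := by
    set C : Set Circle := {z | ((z : ℂ) ^ (-b)).re ≤ 1 / 2} with hC
    have hzc : Continuous fun z : Circle => ((z : ℂ) ^ (-b)).re := by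
      refine Complex.continuous_re.comp ?_
      exact Continuous.zpow₀ coe_cont _ fun z => Or.inl (Circle.coe_ne_zero z)
    have hCc : IsClosed C := isClosed_le hzc continuous_const
    have hCk : IsCompact C := hCc.isCompact
    rcases C.eq_empty_or_nonempty with he | hne
    · refine ⟨1, one_pos, fun z _ => ?_⟩
      by_contra h
      have : z ∈ C := not_lt.1 h
      rw [he] at this
      exact this
    · have hdc : Continuous fun z : Circle => dist (z • x₀) x₀ :=
        (continuous_id.smul continuous_const).dist continuous_const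
      obtain ⟨z₁, hz₁, hmin⟩ := hCk.exists_isMinOn hne hdc.continuousOn
      have hpos : 0 < dist (z₁ • x₀) x₀ := by
        rw [dist_pos]
        intro heq
        have h1 := hst z₁ heq
        have h2 : ((z₁ : ℂ) ^ (-b)).re = 1 := by
          rw [zpow_neg, h1, inv_one, Complex.one_re]
        have h3 : ((z₁ : ℂ) ^ (-b)).re ≤ 1 / 2 := hz₁
        rw [h2] at h3
        norm_num at h3
      refine ⟨_, hpos, fun z hz => ?_⟩
      by_contra h
      have hzC : z ∈ C := not_lt.1 h
      have := hmin hzC
      exact absurd hz (not_lt.2 this)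
  set h : X → ℝ := fun x => max 0 (1 - dist x x₀ / r) with hh
  have hhc : Continuous h := by
    rw [hh]
    exact continuous_const.max (continuous_const.sub ((continuous_id.dist continuous_const).div_const r))
  have hh0 : ∀ x, 0 ≤ h x := fun x => le_max_left _ _
  have hhp : ∀ x, 0 < h x → dist x x₀ < r := by
    intro x hx
    by_contra hcon
    push Not at hcon
    have : 1 - dist x x₀ / r ≤ 0 := by
      have : 1 ≤ dist x x₀ / r := (one_le_div hr).2 hcon
      linarith
    have h2 : h x = 0 := max_eq_left this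
    linarith
  have hh1 : h x₀ = 1 := by
    simp only [hh]
    rw [dist_self, zero_div, sub_zero]
    exact max_eq_right zero_le_one
  set g : X → ℝ → ℂ := fun x θ => (h (Circle.exp θ • x) : ℂ) *
    ((Circle.exp θ : Circle) : ℂ) ^ (-b) with hg
  have hexpc : Continuous fun θ : ℝ => Circle.exp θ := Circle.exp.continuous
  have hgc : Continuous fun q : X × ℝ => g q.1 q.2 := by
    refine Continuous.mul (Complex.continuous_ofReal.comp (hhc.comp ?_)) ?_
    · exact (hexpc.comp continuous_snd).smul continuous_fst
    · refine Continuous.zpow₀ (coe_cont.comp (hexpc.comp continuous_snd)) _ fun z =>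
        Or.inl (Circle.coe_ne_zero _)
  have hgx : ∀ x, Continuous (g x) := fun x =>
    hgc.comp (continuous_const.prodMk continuous_id)
  set c : X → ℂ := fun x => ∫ θ in (0 : ℝ)..(2 * Real.pi), g x θ with hc
  refine ⟨c, ?_, ?_, ?_⟩
  · exact intervalIntegral.continuous_parametric_intervalIntegral_of_continuous' hgc _ _
  · intro w x
    obtain ⟨ψ, hψ⟩ : ∃ ψ : ℝ, Circle.exp ψ = w := ⟨Complex.arg w, Circle.exp_arg w⟩
    have hper : Function.Periodic (g x) (2 * Real.pi) := by
      intro θ
      simp only [hg]
      rw [Circle.periodic_exp θ]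
    have hsh : ∀ θ, g (w • x) θ = (w : ℂ) ^ b * g x (θ + ψ) := by
      intro θ
      simp only [hg]
      rw [smul_smul, ← hψ, ← Circle.exp_add]
      have h1 : ((Circle.exp (θ + ψ) : Circle) : ℂ) ^ (-b) =
          ((Circle.exp θ : Circle) : ℂ) ^ (-b) * ((Circle.exp ψ : Circle) : ℂ) ^ (-b) := by
        rw [Circle.exp_add, Circle.coe_mul, mul_zpow]
      rw [h1]
      have h2 : ((Circle.exp ψ : Circle) : ℂ) ^ b * ((Circle.exp ψ : Circle) : ℂ) ^ (-b) = 1 := by
        rw [← zpow_add₀ (Circle.coe_ne_zero _), add_neg_cancel, zpow_zero]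
      calc (h (Circle.exp (θ + ψ) • x) : ℂ) * ((Circle.exp θ : Circle) : ℂ) ^ (-b)
          = (((Circle.exp ψ : Circle) : ℂ) ^ b * ((Circle.exp ψ : Circle) : ℂ) ^ (-b)) *
            ((h (Circle.exp (θ + ψ) • x) : ℂ) * ((Circle.exp θ : Circle) : ℂ) ^ (-b)) := by
              rw [h2, one_mul]
        _ = _ := by ring
    simp only [hc]
    rw [intervalIntegral.integral_congr (g := fun θ => (w : ℂ) ^ b * g x (θ + ψ))
      (fun θ _ => hsh θ), intervalIntegral.integral_const_mul,
      intervalIntegral.integral_comp_add_right (fun θ => g x θ)]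
    congr 1
    have h3 := hper.intervalIntegral_add_eq 0 ψ
    rw [zero_add] at h3
    rw [zero_add, add_comm (2 * Real.pi) ψ]
    exact h3.symm
  · have hre : (c x₀).re = ∫ θ in (0 : ℝ)..(2 * Real.pi), (g x₀ θ).re := by
      simp only [hc]
      have := (Complex.reCLM).intervalIntegral_comp_comm
        ((hgx x₀).intervalIntegrable (μ := volume) 0 (2 * Real.pi))
      simpa using this.symm
    have hgre : ∀ θ, (g x₀ θ).re = h (Circle.exp θ • x₀) *
        (((Circle.exp θ : Circle) : ℂ) ^ (-b)).re := by
      intro θ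
      simp only [hg]
      rw [Complex.re_ofReal_mul]
    have hpos : 0 < ∫ θ in (0 : ℝ)..(2 * Real.pi), (g x₀ θ).re := by
      refine intervalIntegral.integral_pos (by positivity)
        (Complex.continuous_re.comp (hgx x₀)).continuousOn ?_ ⟨0, ⟨le_rfl, by positivity⟩, ?_⟩
      · intro θ _
        rw [hgre]
        rcases (hh0 (Circle.exp θ • x₀)).eq_or_lt with h0 | h0
        · rw [← h0, zero_mul]
        · have := hrC _ (hhp _ h0)
          exact mul_nonneg h0.le (by linarith)
      · show 0 < (g x₀ 0).re
        rw [hgre, Circle.exp_zero, one_smul, hh1, Circle.coe_one, _root_.one_zpow, Complex.one_re]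
        norm_num
    intro h0
    rw [h0, Complex.zero_re] at hre
    linarith

end Pool.Agent.L7h84.CA
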