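import Mathlib

/-!
# Definitions for the results on circle symmetries (project CA, helper84)
-/

set_option autoImplicit false

open Set Topology Matrix

noncomputable section

namespace Pool.Agent.L7h84.CA

/-- `P` is the orthogonal projection onto a complex line of `ℂ^ι`: a point of a complex projective
space -/
def Line {ι : Type} [Fintype ι] (P : Matrix ι ι ℂ) : Prop :=
  ∃ v : ι → ℂ, star v ⬝ᵥ v = 1 ∧ P = vecMulVec v (star v)

/-- the `K`-th tensor power of the matrix `P` -/
def tpow {m : ℕ} (K : ℕ) (P : Matrix (Fin m) (Fin m) ℂ) :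
    Matrix (Fin K → Fin m) (Fin K → Fin m) ℂ := fun I J => ∏ k, P (I k) (J k)

/-- `F` is equivariant for the linear circle action with the weights `a` -/
def Equi {X : Type} [MulAction Circle X] {m : ℕ} (F : X → Matrix (Fin m) (Fin m) ℂ)
    (a : Fin m → ℤ) : Prop :=
  ∀ (z : Circle) (x : X) (i j : Fin m),
    F (z • x) i j = (z : ℂ) ^ a i * F x i j * star ((z : ℂ) ^ a j)

/-- the orbit space has covering dimension at most `2 n - 1`, in the form of Hurewicz and Wallman:
maps of closed sets to `ℂ^n` without zeros (or to the sphere of dimension `2 n - 1`) extend -/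
def OrbitDim (X : Type) [TopologicalSpace X] [MulAction Circle X] (n : ℕ) : Prop :=
  ∀ A : Set X, IsClosed A → (∀ (z : Circle), ∀ x ∈ A, z • x ∈ A) →
    ∀ f : X → Fin n → ℂ, ContinuousOn f A → (∀ (z : Circle), ∀ x ∈ A, f (z • x) = f x) →
      (∀ x ∈ A, f x ≠ 0) → ∃ g : X → Fin n → ℂ, Continuous g ∧
        (∀ (z : Circle) (x : X), g (z • x) = g x) ∧ (∀ x, g x ≠ 0) ∧ ∀ x ∈ A, g x = f x

end Pool.Agent.L7h84.CA
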