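import Pool.Agent.L7h61.CL.Fill
import Pool.Agent.Y467.GE.MG
import Pool.Agent.Y165.GE.CG
import Pool.Agent.Y590.GE.BK
import Pool.Agent.Y812.GE.EN

/-!
# Families of loops from a family of Lipschitz maps with two fixed points (project CA, helper84)
-/

set_option autoImplicit false

open Set Topology

noncomputable section

namespace Pool.Agent.L7h84.CA

open Pool.Agent.Y489.GE Pool.Agent.L7h61.CL

/-- the clamp to `[0, 1]` -/
def cl (t : ℝ) : ℝ := max 0 (min t 1)

theorem cl_mem (t : ℝ) : cl t ∈ Icc (0 : ℝ) 1 := ⟨le_max_left _ _, max_le zero_le_one (min_le_right _ _)⟩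

theorem cl_of_mem {t : ℝ} (h : t ∈ Icc (0 : ℝ) 1) : cl t = t := by
  unfold cl
  rw [min_eq_left h.2, max_eq_right h.1]

theorem cl_nonpos {t : ℝ} (h : t ≤ 0) : cl t = 0 := by
  unfold cl
  exact max_eq_left (le_trans (min_le_left _ _) h)

theorem cl_ge {t : ℝ} (h : 1 ≤ t) : cl t = 1 := by
  unfold cl
  rw [min_eq_right h]; exact max_eq_right zero_le_one

theorem cl_cont : Continuous cl := by
  unfold cl; fun_prop

theorem cl_lip (s t : ℝ) : |cl s - cl t| ≤ |s - t| := by
  unfold cl
  refine (abs_max_sub_max_le_max _ _ _ _).trans ?_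
  rw [sub_self, abs_zero]
  refine max_le (abs_nonneg _) ?_
  refine (abs_min_sub_min_le_max _ _ _ _).trans ?_
  rw [sub_self, abs_zero]
  exact max_le le_rfl (abs_nonneg _)

/-- filling of families of loops -/
theorem fillC {X : Type} [MetricSpace X] [CompactSpace X] {r : ℝ} (hr : 0 < r)
    (hX : GeodSpace X) (hU : UniqGeod X r) {c : ℝ} (hc : 0 < c) (hno : ¬ ClosedGeod X c) :
    FillC X c := by
  obtain ⟨m, hm⟩ := Pool.Agent.Y467.GE.t_MG X r hr hX hU
  exact fillC_of_no Pool.Agent.Y165.GE.t_CG (Pool.Agent.Y590.GE.t_BK Pool.Agent.Y812.GE.t_EN) hm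
    (by linarith) hc hno

theorem fam {X : Type} [MetricSpace X] [CompactSpace X] {r : ℝ} (hr : 0 < r) (hX : GeodSpace X)
    (hU : UniqGeod X r) {W : Type} [TopologicalSpace W] {φ : W → X → X}
    (hφ : Continuous fun z : W × X => φ z.1 z.2) {lam : ℝ}
    (hlam : ∀ w x y, dist (φ w x) (φ w y) ≤ lam * dist x y) {p q : X} (hp : ∀ w, φ w p = p)
    (hq : ∀ w, φ w q = q) {c : ℝ → X} (hc0 : c 0 = p) (hc1 : c 1 = q)
    (hcd : ∀ s ∈ Icc (0 : ℝ) 1, ∀ t ∈ Icc (0 : ℝ) 1, dist (c s) (c t) = |s - t| * dist p q)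
    (hno : ¬ ClosedGeod X ((1 + lam) * dist p q)) :
    ∃ D : W → ℝ → ℝ → X, Continuous (fun z : W × ℝ × ℝ => D z.1 z.2.1 z.2.2) ∧
      (∀ w, ∀ t ∈ Icc (0 : ℝ) 1, D w 0 t = c t) ∧
      (∀ w, ∀ t ∈ Icc (0 : ℝ) 1, D w 0 (2 - t) = φ w (c t)) ∧
      (∀ w s, D w s 2 = D w s 0) ∧ ∀ w t, D w 1 t = D w 1 0 := by
  by_cases hW : IsEmpty W
  · exact ⟨fun w => (hW.false w).elim, continuous_iff_continuousAt.2 fun z => (hW.false z.1).elim,
      fun w => (hW.false w).elim, fun w => (hW.false w).elim, fun w => (hW.false w).elim,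
      fun w => (hW.false w).elim⟩
  have hWn : Nonempty W := not_isEmpty_iff.1 hW
  obtain ⟨w₀⟩ := hWn
  have hφw : ∀ x, Continuous fun w => φ w x := fun x =>
    hφ.comp (continuous_id.prodMk continuous_const)
  rcases eq_or_ne p q with hpq | hpq
  · have hcc : ∀ t ∈ Icc (0 : ℝ) 1, c t = p := by
      intro t ht
      have := hcd t ht 0 ⟨le_rfl, zero_le_one⟩
      rw [hpq, dist_self, mul_zero] at this
      rw [dist_eq_zero.1 this, hc0]
    refine ⟨fun _ _ _ => p, continuous_const, fun w t ht => (hcc t ht).symm, fun w t ht => ?_,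
      fun _ _ => rfl, fun _ _ => rfl⟩
    rw [hcc t ht, hp]
  obtain ⟨d, hd⟩ : ∃ d, d = dist p q := ⟨_, rfl⟩
  have hd0 : 0 < d := by rw [hd]; exact dist_pos.2 hpq
  rw [← hd] at hcd hno
  have hl1 : 1 ≤ lam := by
    have := hlam w₀ p q
    rw [hp, hq, ← hd] at this
    nlinarith
  have hl0 : 0 < lam := by linarith
  have hld : 0 < lam * d := by positivity
  obtain ⟨C, hC⟩ : ∃ C, C = (1 + lam) * d := ⟨_, rfl⟩
  have hC' : C = d + lam * d := by rw [hC]; ring
  rw [← hC] at hno
  have hC0 : 0 < C := by rw [hC']; positivity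
  set a : ℝ → X := fun t => c (cl (t / d)) with ha
  set b : W → ℝ → X := fun w t => φ w (c (cl ((C - t) / (lam * d)))) with hb
  have haL : ∀ s t, dist (a s) (a t) ≤ |s - t| := by
    intro s t
    rw [ha]
    simp only
    rw [hcd _ (cl_mem _) _ (cl_mem _)]
    calc |cl (s / d) - cl (t / d)| * d ≤ |s / d - t / d| * d :=
          mul_le_mul_of_nonneg_right (cl_lip _ _) hd0.le
      _ = |s - t| := by
          rw [← sub_div, abs_div, abs_of_pos hd0, div_mul_cancel₀ _ hd0.ne']
  have hbL : ∀ w s t, dist (b w s) (b w t) ≤ |s - t| := by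
    intro w s t
    rw [hb]
    simp only
    refine (hlam _ _ _).trans ?_
    rw [hcd _ (cl_mem _) _ (cl_mem _)]
    calc lam * (|cl ((C - s) / (lam * d)) - cl ((C - t) / (lam * d))| * d)
        ≤ lam * (|(C - s) / (lam * d) - (C - t) / (lam * d)| * d) :=
          mul_le_mul_of_nonneg_left (mul_le_mul_of_nonneg_right (cl_lip _ _) hd0.le) hl0.le
      _ = |s - t| := by
          rw [← sub_div, abs_div, abs_of_pos hld]
          have : C - s - (C - t) = -(s - t) := by ring
          rw [this, abs_neg]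
          field_simp
  have had : a d = q := by
    rw [ha]; simp only
    rw [div_self hd0.ne', cl_ge le_rfl, hc1]
  have hbd : ∀ w, b w d = q := by
    intro w
    rw [hb]; simp only
    have : (C - d) / (lam * d) = 1 := by rw [hC']; field_simp; ring
    rw [this, cl_ge le_rfl, hc1, hq]
  set F : W → ℝ → X := fun w t => if t ≤ d then a t else b w t with hF
  have hFc : Continuous F := by
    refine continuous_pi fun t => ?_
    by_cases h : t ≤ d
    · simp only [hF, if_pos h]; exact continuous_const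
    · simp only [hF, if_neg h]
      exact hφw _
  have hF0 : ∀ w, F w 0 = p := by
    intro w
    simp only [hF, if_pos hd0.le, ha, zero_div, cl_nonpos le_rfl, hc0]
  have hFm : ∀ w, F w ∈ OmF X C := by
    intro w
    have hmix : ∀ s t, s ≤ d → ¬ t ≤ d → dist (F w s) (F w t) ≤ |s - t| := by
      intro s t hs ht
      simp only [hF, if_pos hs, if_neg ht]
      have h1 := dist_triangle (a s) q (b w t)
      have h2 : dist (a s) q ≤ |s - d| := by rw [← had]; exact haL _ _
      have h3 : dist q (b w t) ≤ |d - t| := by rw [← hbd w]; exact hbL _ _ _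
      have h4 : |s - d| + |d - t| = |s - t| := by
        push Not at ht
        rw [abs_of_nonpos (by linarith), abs_of_nonpos (by linarith), abs_of_nonpos (by linarith)]
        ring
      linarith
    refine ⟨fun s t => ?_, fun t ht => ?_, fun t ht => ?_⟩
    · by_cases hs : s ≤ d
      · by_cases ht : t ≤ d
        · simp only [hF, if_pos hs, if_pos ht]; exact haL _ _
        · exact hmix s t hs ht
      · by_cases ht : t ≤ d
        · rw [dist_comm, abs_sub_comm]; exact hmix t s ht hs
        · simp only [hF, if_neg hs, if_neg ht]; exact hbL _ _ _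
    · rw [hF0]
      simp only [hF, if_pos (ht.trans hd0.le), ha]
      rw [cl_nonpos (div_nonpos_of_nonpos_of_nonneg ht hd0.le), hc0]
    · rw [hF0]
      have h1 : ¬ t ≤ d := by push Not; linarith
      simp only [hF, if_neg h1, hb]
      rw [cl_nonpos (div_nonpos_of_nonpos_of_nonneg (by linarith) hld.le), hc0, hp]
  obtain ⟨D, hD1, hD2, hD3, hD4, -⟩ := fillC hr hX hU hC0 hno W F hFc hFm
  -- reparametrisation
  set τ : ℝ → ℝ := fun t => d * min t 1 + lam * d * max (t - 1) 0 with hτ
  have hτc : Continuous τ := by rw [hτ]; fun_prop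
  refine ⟨fun w s t => D w s (τ t), ?_, ?_, ?_, ?_, ?_⟩
  · exact hD1.comp (continuous_fst.prodMk ((continuous_fst.comp continuous_snd).prodMk
      (hτc.comp (continuous_snd.comp continuous_snd))))
  · intro w t ht
    have h1 : τ t = d * t := by
      simp only [hτ]
      rw [min_eq_left ht.2, max_eq_right (by linarith [ht.2])]; ring
    show D w 0 (τ t) = c t
    rw [hD2, h1]
    have h2 : d * t ≤ d := by nlinarith [ht.2]
    simp only [hF, if_pos h2, ha]
    rw [mul_div_assoc, mul_comm, div_mul_cancel₀ _ hd0.ne', cl_of_mem ht]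
  · intro w t ht
    have h1 : τ (2 - t) = d + lam * d * (1 - t) := by
      simp only [hτ]
      rw [min_eq_right (by linarith [ht.2]), max_eq_left (by linarith [ht.2])]; ring
    show D w 0 (τ (2 - t)) = φ w (c t)
    rw [hD2, h1]
    rcases eq_or_lt_of_le ht.2 with h | h
    · subst h
      have h2 : d + lam * d * (1 - 1) = d := by ring
      rw [h2, hc1, hq]
      simp only [hF, if_pos le_rfl]
      exact had
    · have h2 : ¬ d + lam * d * (1 - t) ≤ d := by
        push Not
        have : 0 < lam * d * (1 - t) := mul_pos hld (by linarith)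
        linarith
      simp only [hF, if_neg h2, hb]
      have h3 : (C - (d + lam * d * (1 - t))) / (lam * d) = t := by
        rw [hC']; field_simp; ring
      rw [h3, cl_of_mem ht]
  · intro w s
    have h1 : τ 2 = C := by
      simp only [hτ]
      rw [hC', min_eq_right (by norm_num), max_eq_left (by norm_num)]; ring
    have h2 : τ 0 = 0 := by
      simp only [hτ]
      rw [min_eq_left (by norm_num), max_eq_right (by norm_num)]; ring
    show D w s (τ 2) = D w s (τ 0)
    rw [h1, h2]
    exact hD4 w s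
  · intro w t
    show D w 1 (τ t) = D w 1 (τ 0)
    rw [hD3 w (τ t), hD3 w (τ 0)]

end Pool.Agent.L7h84.CA
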