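import Pool.Agent.L7h84.CA.Alg
import Pool.Agent.L7h84.CA.Fam

/-!
# Circle actions with two fixed points of different weights (project CA, helper84)
-/

set_option autoImplicit false

open Set Topology Matrix

noncomputable section

namespace Pool.Agent.L7h84.CA

open Pool.Agent.Y489.GE Pool.Agent.L7h61.CL

theorem mp_continuous {Y : Type} [TopologicalSpace Y] {m : ℕ}
    {P : ℕ → Y → Matrix (Fin m) (Fin m) ℂ} (hP : ∀ i, Continuous (P i)) (n : ℕ) :
    Continuous fun y => mp (fun i => P i y) n := by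
  induction n with
  | zero => exact hP 0
  | succ n ih => exact ih.matrix_mul (hP (n + 1))

theorem exp_weights (a b : ℤ) (θ : ℝ) :
    ((Circle.exp θ : ℂ) ^ b) * star ((Circle.exp θ : ℂ) ^ a) =
      Complex.exp (((b - a : ℤ) : ℂ) * (θ * Complex.I)) := by
  rw [Circle.coe_exp, ← Complex.exp_int_mul, ← Complex.exp_int_mul]
  have h1 : star (Complex.exp ((a : ℂ) * (θ * Complex.I))) =
      Complex.exp (-((a : ℂ) * (θ * Complex.I))) := by
    rw [← starRingEnd_apply, ← Complex.exp_conj]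
    congr 1
    simp
  rw [h1, ← Complex.exp_add]
  congr 1
  push_cast
  ring

theorem unit_weights (a : ℤ) (z : Circle) : ((z : ℂ) ^ a) * star ((z : ℂ) ^ a) = 1 := by
  have h1 : ‖(z : ℂ) ^ a‖ = 1 := by rw [norm_zpow, Circle.norm_coe, _root_.one_zpow]
  rw [← starRingEnd_apply, Complex.mul_conj, Complex.normSq_eq_norm_sq, h1]
  norm_num

/-- the distance in the product of the last factor -/
theorem circle {X : Type} [MetricSpace X] [CompactSpace X] {r : ℝ} (hr : 0 < r)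
    (hX : GeodSpace X) (hU : UniqGeod X r) {φ : Circle → X → X}
    (hφ : Continuous fun z : Circle × X => φ z.1 z.2) {lam : ℝ}
    (hlam : ∀ z x y, dist (φ z x) (φ z y) ≤ lam * dist x y)
    {m : ℕ} {F : X → Matrix (Fin m) (Fin m) ℂ} (hF : Continuous F) (hFl : ∀ x, IsLine (F x))
    {U : Circle → Matrix (Fin m) (Fin m) ℂ} (hU1 : ∀ z, U z * (U z)ᴴ = 1)
    (hUF : ∀ z x, F (φ z x) = U z * F x * (U z)ᴴ)
    {p q : X} {v w : Fin m → ℂ} {a b : ℤ} (hp : ∀ z, φ z p = p) (hq : ∀ z, φ z q = q)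
    (hv : F p = vecMulVec v (star v)) (hw : F q = vecMulVec w (star w))
    (hva : ∀ z : Circle, U z *ᵥ v = ((z : ℂ) ^ a) • v)
    (hwb : ∀ z : Circle, U z *ᵥ w = ((z : ℂ) ^ b) • w) (hab : a ≠ b) :
    ClosedGeod X ((1 + lam) * dist p q) := by
  by_contra hno
  obtain ⟨c, hc0, hc1, hcd⟩ := hX p q
  obtain ⟨D, hDc, hD1, hD2, hD3, hD4⟩ := fam hr hX hU hφ hlam hp hq hc0 hc1 hcd hno
  have clc := cl_cont
  set K : Circle → ℝ → ℝ → Matrix (Fin m) (Fin m) ℂ := fun z s t => F (D z (cl s) t) with hK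
  have hKc : Continuous fun x : Circle × ℝ × ℝ => K x.1 x.2.1 x.2.2 := by
    refine hF.comp (hDc.comp (continuous_fst.prodMk ((clc.comp ?_).prodMk ?_)))
    · exact continuous_fst.comp continuous_snd
    · exact continuous_snd.comp continuous_snd
  have hKl : ∀ z s t, IsLine (K z s t) := fun z s t => hFl _
  -- uniform continuity
  obtain ⟨δ, hδ, hT⟩ : ∃ δ > 0, ∀ z : Circle, ∀ s : ℝ, ∀ t ∈ Icc (0 : ℝ) 2,
      ∀ t' ∈ Icc (0 : ℝ) 2, |t - t'| < δ → trace (K z s t * K z s t') ≠ 0 := by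
    set T : Circle × (Icc (0 : ℝ) 1) × (Icc (0 : ℝ) 2) × (Icc (0 : ℝ) 2) → ℂ := fun x =>
      trace (K x.1 x.2.1 x.2.2.1 * K x.1 x.2.1 x.2.2.2) with hTdef
    have hTc : Continuous T := by
      refine Continuous.matrix_trace (Continuous.matrix_mul ?_ ?_)
      · exact hKc.comp (f := fun x : Circle × (Icc (0 : ℝ) 1) × (Icc (0 : ℝ) 2) × (Icc (0 : ℝ) 2) =>
          (x.1, (x.2.1 : ℝ), (x.2.2.1 : ℝ))) (by fun_prop)
      · exact hKc.comp (f := fun x : Circle × (Icc (0 : ℝ) 1) × (Icc (0 : ℝ) 2) × (Icc (0 : ℝ) 2) =>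
          (x.1, (x.2.1 : ℝ), (x.2.2.2 : ℝ))) (by fun_prop)
    have hTu := CompactSpace.uniformContinuous_of_continuous hTc
    obtain ⟨δ, hδ, h⟩ := Metric.uniformContinuous_iff.1 hTu 1 one_pos
    refine ⟨δ, hδ, fun z s t ht t' ht' htt h0 => ?_⟩
    have h1 := @h (z, ⟨cl s, cl_mem s⟩, ⟨t, ht⟩, ⟨t, ht⟩) (z, ⟨cl s, cl_mem s⟩, ⟨t, ht⟩, ⟨t', ht'⟩)
      (by
        have e : dist ((z, ⟨cl s, cl_mem s⟩, ⟨t, ht⟩, ⟨t, ht⟩) :
            Circle × (Icc (0 : ℝ) 1) × (Icc (0 : ℝ) 2) × (Icc (0 : ℝ) 2))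
            (z, ⟨cl s, cl_mem s⟩, ⟨t, ht⟩, ⟨t', ht'⟩) = max 0 (max 0 (max 0 |t - t'|)) := by
          simp [Prod.dist_eq, Subtype.dist_eq, Real.dist_eq]
        rw [e]
        exact max_lt hδ (max_lt hδ (max_lt hδ htt)))
    have hcc : cl (cl s) = cl s := cl_of_mem (cl_mem s)
    have h2 : T (z, ⟨cl s, cl_mem s⟩, ⟨t, ht⟩, ⟨t, ht⟩) = 1 := by
      obtain ⟨u, hu, hKu⟩ := hKl z s t
      simp only [hTdef]
      have : K z (cl s) t = K z s t := by simp only [hK, hcc]
      rw [this, hKu, line_idem hu, trace_vec, hu]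
    have h3 : T (z, ⟨cl s, cl_mem s⟩, ⟨t, ht⟩, ⟨t', ht'⟩) = 0 := by
      simp only [hTdef]
      have e1 : K z (cl s) t = K z s t := by simp only [hK, hcc]
      have e2 : K z (cl s) t' = K z s t' := by simp only [hK, hcc]
      rw [e1, e2, h0]
    rw [h2, h3] at h1
    simp at h1
  obtain ⟨k, hk⟩ := exists_nat_gt (1 / δ)
  have hk0 : (0 : ℝ) < k := lt_trans (by positivity) hk
  have hkn : 0 < k := by exact_mod_cast hk0
  have hkδ : 1 / (k : ℝ) < δ := by
    rw [div_lt_iff₀ hδ] at hk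
    rw [div_lt_iff₀ hk0]
    linarith
  have hstep : ∀ (z : Circle) (s : ℝ) (i : ℕ), i < 2 * k →
      trace (K z s (i / k) * K z s (((i + 1 : ℕ) : ℝ) / k)) ≠ 0 := by
    intro z s i hi
    have h1 : (i : ℝ) + 1 ≤ 2 * k := by exact_mod_cast hi
    refine hT z s _ ⟨by positivity, ?_⟩ _ ⟨by positivity, ?_⟩ ?_
    · rw [div_le_iff₀ hk0]; linarith
    · rw [div_le_iff₀ hk0]; push_cast; linarith
    · rw [abs_sub_comm, ← sub_div]
      push_cast
      rw [add_sub_cancel_left, abs_of_pos (by positivity)]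
      exact hkδ
  have hclosed : ∀ (z : Circle) (s : ℝ), K z s (((2 * k : ℕ) : ℝ) / k) = K z s (((0 : ℕ) : ℝ) / k) := by
    intro z s
    have h1 : ((2 * k : ℕ) : ℝ) / k = 2 := by push_cast; field_simp
    rw [h1]
    simp only [hK, Nat.cast_zero, zero_div]
    rw [hD3]
  -- the invariant
  set h : ℝ → ℝ → ℂ := fun s θ =>
    trace (mp (fun i => K (Circle.exp θ) s ((i : ℝ) / k)) (2 * k)) with hh
  have hhc : Continuous fun x : ℝ × ℝ => h (1 - x.1) x.2 := by
    refine Continuous.matrix_trace ?_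
    refine mp_continuous (P := fun i (x : ℝ × ℝ) => K (Circle.exp x.2) (1 - x.1) ((i : ℝ) / k))
      (fun i => ?_) (2 * k)
    exact hKc.comp (f := fun x : ℝ × ℝ => (Circle.exp x.2, 1 - x.1, (i : ℝ) / k)) (by fun_prop)
  have hh0 : ∀ s θ, h s θ ≠ 0 := fun s θ =>
    trace_mp_ne (fun i => hKl _ _ _) (fun i hi => hstep _ _ i hi) (hclosed _ _)
  -- the sequence along the geodesic
  have hP0 : ∀ i : ℕ, i ≤ k → ∀ z, K z 0 ((i : ℝ) / k) = F (c ((i : ℝ) / k)) := by
    intro i hi z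
    have h1 : (i : ℝ) / k ∈ Icc (0 : ℝ) 1 :=
      ⟨by positivity, by rw [div_le_iff₀ hk0]; have : (i : ℝ) ≤ k := by exact_mod_cast hi
                         linarith⟩
    simp only [hK]
    rw [cl_nonpos le_rfl, hD1 z _ h1]
  obtain ⟨β, hβ, hβ'⟩ := trace_pal (P := fun i : ℕ => F (c ((i : ℝ) / k))) (fun i => hFl _) k
    (by
      intro i hi
      have h1 := hstep 1 0 i (by omega)
      rw [hP0 i hi.le, hP0 (i + 1) hi] at h1
      exact h1) (v := v) (w := w) (by simp [hc0, hv]) (by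
      rw [div_self hk0.ne', hc1, hw])
  have hend : ∀ θ, h 0 θ = β * Complex.exp (((b - a : ℤ) : ℂ) * (θ * Complex.I)) := by
    intro θ
    rw [← exp_weights, ← hβ' (U (Circle.exp θ)) _ _ (hU1 _) (unit_weights a _) (unit_weights b _)
      (hva _) (hwb _)]
    simp only [hh]
    congr 1
    refine mp_congr fun i hi => ?_
    by_cases hik : i ≤ k
    · rw [if_pos hik, hP0 i hik]
    · rw [if_neg hik, ← hUF]
      have hik' : (i : ℝ) ≤ 2 * k := by exact_mod_cast hi
      have hik2 : (k : ℝ) < i := by exact_mod_cast not_le.1 hik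
      have e1 : ((2 * k - i : ℕ) : ℝ) = 2 * k - i := by
        rw [Nat.cast_sub hi]; push_cast; ring
      have h1 : ((2 * k - i : ℕ) : ℝ) / k ∈ Icc (0 : ℝ) 1 := by
        rw [e1]
        refine ⟨div_nonneg (by linarith) hk0.le, ?_⟩
        rw [div_le_iff₀ hk0]; linarith
      rw [← hD2 _ _ h1]
      simp only [hK]
      rw [cl_nonpos le_rfl]
      congr 2
      rw [e1]
      field_simp
      ring
  have hstart : ∀ θ, h 1 θ = 1 := by
    intro θ
    simp only [hh]
    have : mp (fun i : ℕ => K (Circle.exp θ) 1 ((i : ℝ) / k)) (2 * k) =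
        mp (fun _ => K (Circle.exp θ) 1 0) (2 * k) := by
      refine mp_congr fun i _ => ?_
      simp only [hK]
      rw [cl_ge le_rfl, hD4]
    rw [this]
    exact trace_mp_const (hKl _ _ _) _
  have hfin := winding (fun x => h (1 - x.1) x.2) hhc (fun x => hh0 _ _) (by
      intro t θ
      simp only [hh]
      have : Circle.exp (θ + 2 * Real.pi) = Circle.exp θ := Circle.periodic_exp θ
      rw [this]) (b - a) 1 β (fun θ => by
        show h (1 - 0) θ = 1
        rw [sub_zero]; exact hstart θ) (fun θ => by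
        show h (1 - 1) θ = _
        rw [sub_self]; exact hend θ)
  exact hab (by omega)

end Pool.Agent.L7h84.CA
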