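import Pool.Agent.L7h84.CA.Inv
import Pool.Agent.L7h84.CA.Main

/-!
# Periodic geodesics or invariant line bundles (project CA, helper84)
-/

set_option autoImplicit false

open Set Topology Matrix

noncomputable section

namespace Pool.Agent.L7h84.CA

open Pool.Agent.Y489.GE

theorem closedGeod_mono {X : Type} [MetricSpace X] {L L' : ℝ} (h : ClosedGeod X L) (hL : L ≤ L') :
    ClosedGeod X L' := by
  obtain ⟨γ, ℓ, h1, h2, h3⟩ := h
  exact ⟨γ, ℓ, h1, h2.trans hL, h3⟩

/-- two fixed points over which the weights differ -/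
theorem two_weights {X : Type} [MetricSpace X] [CompactSpace X] {r : ℝ} (hr : 0 < r)
    (hX : GeodSpace X) (hU : UniqGeod X r) [MulAction Circle X] [ContinuousSMul Circle X]
    [IsIsometricSMul Circle X] {m : ℕ} {F : X → Matrix (Fin m) (Fin m) ℂ} (hF : Continuous F)
    (hl : ∀ x, Line (F x)) {a : Fin m → ℤ} (hE : Equi F a) {p q : X}
    (hp : ∀ z : Circle, z • p = p) (hq : ∀ z : Circle, z • q = q) {i j : Fin m}
    (hi : F p i i ≠ 0) (hj : F q j j ≠ 0) (hij : a i ≠ a j) : ClosedGeod X (2 * dist p q) := by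
  have hU1 : ∀ z : Circle, diagonal (fun k => (z : ℂ) ^ a k) *
      (diagonal (fun k => (z : ℂ) ^ a k))ᴴ = (1 : Matrix (Fin m) (Fin m) ℂ) := by
    intro z
    rw [diagonal_conjTranspose, diagonal_mul_diagonal, ← diagonal_one]
    congr 1
    funext k
    exact unit_weights (a k) z
  have hUF : ∀ (z : Circle) (x : X), F (z • x) = diagonal (fun k => (z : ℂ) ^ a k) * F x *
      (diagonal (fun k => (z : ℂ) ^ a k))ᴴ := by
    intro z x
    ext k l
    rw [diagonal_conjTranspose, mul_diagonal, diagonal_mul]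
    exact hE z x k l
  obtain ⟨v, hv, hpv⟩ := hl p
  obtain ⟨w, hw, hqw⟩ := hl q
  have key : ∀ (y : X) (hy : ∀ z : Circle, z • y = y) (u : Fin m → ℂ)
      (hu : F y = vecMulVec u (star u)) (k : Fin m), F y k k ≠ 0 → ∀ z : Circle,
      diagonal (fun k => (z : ℂ) ^ a k) *ᵥ u = ((z : ℂ) ^ a k) • u := by
    intro y hy u hu k hk z
    ext l
    rw [mulVec_diagonal, Pi.smul_apply, smul_eq_mul]
    by_cases hul : u l = 0
    · rw [hul, mul_zero, mul_zero]
    · have hll : F y l l ≠ 0 := by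
        rw [hu, vecMulVec_apply]
        exact mul_ne_zero hul (by rw [Pi.star_apply]; exact star_ne_zero.2 hul)
      rw [isot hE (hl y) (hy z) hll hk]
  have h := circle (X := X) hr hX hU (φ := fun z x => z • x) continuous_smul (lam := 1)
    (fun z x y => by rw [dist_smul, one_mul]) hF hl hU1 hUF hp hq hpv hqw
    (key p hp v hpv i hi) (key q hq w hqw j hj) hij
  have e : (1 : ℝ) + 1 = 2 := by norm_num
  rwa [e] at h

theorem unit_neg (z : Circle) (b : ℤ) : ((z : ℂ) ^ (-b)) * star ((z : ℂ) ^ (-b)) = 1 :=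
  unit_weights (-b) z

theorem equi_shift {X : Type} [MulAction Circle X] {m : ℕ} {F : X → Matrix (Fin m) (Fin m) ℂ}
    {a : Fin m → ℤ} (hE : Equi F a) (b : ℤ) : Equi F (fun i => a i - b) := by
  intro z x i j
  rw [hE z x i j]
  have h1 : ∀ k, (z : ℂ) ^ (a k - b) = (z : ℂ) ^ a k * (z : ℂ) ^ (-b) := by
    intro k
    rw [sub_eq_add_neg, zpow_add₀ (Circle.coe_ne_zero z)]
  rw [h1, h1, star_mul']
  calc (z : ℂ) ^ a i * F x i j * star ((z : ℂ) ^ a j)
      = (z : ℂ) ^ a i * F x i j * star ((z : ℂ) ^ a j) *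
        (((z : ℂ) ^ (-b)) * star ((z : ℂ) ^ (-b))) := by rw [unit_neg, mul_one]
    _ = _ := by ring

/-- periodic geodesics or a matrix which leads to invariant lines -/
theorem dich {X : Type} [MetricSpace X] [CompactSpace X] {r : ℝ} (hr : 0 < r)
    (hX : GeodSpace X) (hU : UniqGeod X r) [MulAction Circle X] [ContinuousSMul Circle X]
    [IsIsometricSMul Circle X] {m : ℕ} {F : X → Matrix (Fin m) (Fin m) ℂ} (hF : Continuous F)
    (hl : ∀ x, Line (F x)) {a : Fin m → ℤ} (hE : Equi F a) {D : ℝ}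
    (hD : ∀ p q : X, (∀ z : Circle, z • p = p) → (∀ z : Circle, z • q = q) → dist p q ≤ D)
    (hno : ¬ ClosedGeod X (2 * D)) :
    ∃ (K N : ℕ) (M : X → Matrix (Fin N) (Fin K → Fin m) ℂ), 0 < K ∧ Continuous M ∧
      (∀ x, M x * tpow K (F x) ≠ 0) ∧
      ∀ (z : Circle) (x : X), M (z • x) * tpow K (F (z • x)) * (M (z • x))ᴴ =
        M x * tpow K (F x) * (M x)ᴴ := by
  obtain ⟨b, hb⟩ : ∃ b : ℤ, ∀ p : X, (∀ z : Circle, z • p = p) → ∀ i, F p i i ≠ 0 → a i = b := by
    by_cases hfix : ∃ p : X, ∀ z : Circle, z • p = p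
    · obtain ⟨p, hp⟩ := hfix
      obtain ⟨i, hi⟩ := diag_ne (hl p)
      refine ⟨a i, fun q hq j hj => ?_⟩
      by_contra hne
      refine hno (closedGeod_mono (two_weights hr hX hU hF hl hE hq hp hj hi hne) ?_)
      have := hD q p hq hp
      linarith
    · exact ⟨0, fun p hp => (hfix ⟨p, hp⟩).elim⟩
  exact invmap hF hl (equi_shift hE b) (fun p hp i hi => by rw [hb p hp i hi, sub_self])

/-- first form of the conclusion -/
theorem dich_inv {X : Type} [MetricSpace X] [CompactSpace X] {r : ℝ} (hr : 0 < r)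
    (hX : GeodSpace X) (hU : UniqGeod X r) [MulAction Circle X] [ContinuousSMul Circle X]
    [IsIsometricSMul Circle X] {m : ℕ} {F : X → Matrix (Fin m) (Fin m) ℂ} (hF : Continuous F)
    (hl : ∀ x, Line (F x)) {a : Fin m → ℤ} (hE : Equi F a) {D : ℝ}
    (hD : ∀ p q : X, (∀ z : Circle, z • p = p) → (∀ z : Circle, z • q = q) → dist p q ≤ D)
    (hno : ¬ ClosedGeod X (2 * D)) :
    ∃ (K N : ℕ) (G : X → Matrix (Fin N) (Fin N) ℂ)
      (H : X → ℝ → Matrix ((Fin K → Fin m) ⊕ Fin N) ((Fin K → Fin m) ⊕ Fin N) ℂ),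
      0 < K ∧ Continuous G ∧ (∀ x, Line (G x)) ∧ (∀ (z : Circle) (x : X), G (z • x) = G x) ∧
      Continuous (fun q : X × ℝ => H q.1 q.2) ∧ (∀ x s, Line (H x s)) ∧
      (∀ x, H x 0 = fromBlocks (tpow K (F x)) 0 0 0) ∧ ∀ x, H x 1 = fromBlocks 0 0 0 (G x) := by
  obtain ⟨K, N, M, hK, hMc, hM, hMi⟩ := dich hr hX hU hF hl hE hD hno
  have htc : Continuous fun x => tpow K (F x) := continuous_matrix fun I I' =>
    continuous_finsetProd _ fun k _ => hF.matrix_elem _ _
  have htl : ∀ x, Line (tpow K (F x)) := fun x => tpow_line K (hl x)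
  obtain ⟨H, h1, h2, h3, h4⟩ := join htc htl hMc hM
  refine ⟨K, N, fun x => push (tpow K (F x)) (M x), H, hK, push_cont htc htl hMc hM,
    fun x => push_line (htl x) (hM x), fun z x => ?_, h1, h2, h3, h4⟩
  show push (tpow K (F (z • x))) (M (z • x)) = push (tpow K (F x)) (M x)
  unfold push
  rw [hMi]

/-- second form of the conclusion -/
theorem dich_dim {X : Type} [MetricSpace X] [CompactSpace X] {r : ℝ} (hr : 0 < r)
    (hX : GeodSpace X) (hU : UniqGeod X r) [MulAction Circle X] [ContinuousSMul Circle X]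
    [IsIsometricSMul Circle X] {m : ℕ} {F : X → Matrix (Fin m) (Fin m) ℂ} (hF : Continuous F)
    (hl : ∀ x, Line (F x)) {a : Fin m → ℤ} (hE : Equi F a) {D : ℝ}
    (hD : ∀ p q : X, (∀ z : Circle, z • p = p) → (∀ z : Circle, z • q = q) → dist p q ≤ D)
    {n : ℕ} (hn : OrbitDim X n) (hno : ¬ ClosedGeod X (2 * D)) :
    ∃ (K : ℕ) (G : X → Matrix (Fin n) (Fin n) ℂ)
      (H : X → ℝ → Matrix ((Fin K → Fin m) ⊕ Fin n) ((Fin K → Fin m) ⊕ Fin n) ℂ),
      0 < K ∧ Continuous G ∧ (∀ x, Line (G x)) ∧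
      Continuous (fun q : X × ℝ => H q.1 q.2) ∧ (∀ x s, Line (H x s)) ∧
      (∀ x, H x 0 = fromBlocks (tpow K (F x)) 0 0 0) ∧ ∀ x, H x 1 = fromBlocks 0 0 0 (G x) := by
  obtain ⟨K, N, M, hK, hMc, hM, hMi⟩ := dich hr hX hU hF hl hE hD hno
  have htc : Continuous fun x => tpow K (F x) := continuous_matrix fun I I' =>
    continuous_finsetProd _ fun k _ => hF.matrix_elem _ _
  have htl : ∀ x, Line (tpow K (F x)) := fun x => tpow_line K (hl x)
  obtain ⟨S, hS, hSG⟩ := sections hn (push_cont htc htl hMc hM)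
    (fun x => push_line (htl x) (hM x)) (fun z x => by unfold push; rw [hMi])
  have hSM : ∀ x, S x * M x * tpow K (F x) ≠ 0 := by
    intro x h
    apply hSG x
    unfold push
    rw [Matrix.mul_smul, ← Matrix.mul_assoc, ← Matrix.mul_assoc, h, Matrix.zero_mul, smul_zero]
  obtain ⟨H, h1, h2, h3, h4⟩ := join htc htl (hS.matrix_mul hMc) hSM
  exact ⟨K, fun x => push (tpow K (F x)) (S x * M x), H, hK,
    push_cont htc htl (hS.matrix_mul hMc) hSM, fun x => push_line (htl x) (hSM x), h1, h2, h3, h4⟩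

/-- complex projective spaces -/
theorem projective {X : Type} [MetricSpace X] [CompactSpace X] {r : ℝ} (hr : 0 < r)
    (hX : GeodSpace X) (hU : UniqGeod X r) [MulAction Circle X] [ContinuousSMul Circle X]
    [IsIsometricSMul Circle X] {m : ℕ} {F : X → Matrix (Fin m) (Fin m) ℂ} (hF : Continuous F)
    (hinj : Function.Injective F) (hran : range F = {P | Line P}) {a : Fin m → ℤ} (hE : Equi F a)
    {i j : Fin m} (hij : a i ≠ a j) :
    ∃ p q : X, (∀ z : Circle, z • p = p) ∧ (∀ z : Circle, z • q = q) ∧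
      F p = Matrix.single i i 1 ∧ F q = Matrix.single j j 1 ∧ ClosedGeod X (2 * dist p q) := by
  have hl : ∀ x, Line (F x) := fun x => by
    have : F x ∈ range F := ⟨x, rfl⟩
    rwa [hran] at this
  have hs : ∀ k : Fin m, ∃ y : X, F y = Matrix.single k k 1 ∧ ∀ z : Circle, z • y = y := by
    intro k
    have hk : Matrix.single k k (1 : ℂ) ∈ range F := by
      rw [hran]
      refine ⟨Pi.single k 1, ?_, ?_⟩
      · simp [dotProduct, Pi.single_apply]
      · ext x y
        simp only [vecMulVec_apply, Pi.star_apply, Matrix.single_apply, Pi.single_apply]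
        by_cases hx : x = k <;> by_cases hy : y = k
        · subst hx; subst hy; simp
        · rw [if_neg (fun h => hy h.2.symm), if_neg hy]; simp
        · rw [if_neg (fun h => hx h.1.symm), if_neg hx]; simp
        · rw [if_neg (fun h => hx h.1.symm), if_neg hx]; simp
    obtain ⟨y, hy⟩ := hk
    refine ⟨y, hy, fun z => hinj ?_⟩
    ext x' y'
    rw [hE z y x' y', hy, Matrix.single_apply]
    by_cases h : k = x' ∧ k = y'
    · obtain ⟨rfl, rfl⟩ := h
      rw [if_pos ⟨rfl, rfl⟩, mul_one]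
      exact unit_weights _ z
    · rw [if_neg h]; ring
  obtain ⟨p, hp1, hp2⟩ := hs i
  obtain ⟨q, hq1, hq2⟩ := hs j
  refine ⟨p, q, hp2, hq2, hp1, hq1, two_weights hr hX hU hF hl hE hp2 hq2 (i := i) (j := j) ?_ ?_ hij⟩
  · rw [hp1]; simp
  · rw [hq1]; simp

end Pool.Agent.L7h84.CA
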