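import Pool.Agent.L7h84.CA.Join

/-!
# Invariant maps to projective spaces, maps of the orbit space (project CA, helper84)
-/

set_option autoImplicit false

open Set Topology Matrix

noncomputable section

namespace Pool.Agent.L7h84.CA

/-- the invariant map -/
theorem invmap {X : Type} [MetricSpace X] [CompactSpace X] [MulAction Circle X]
    [ContinuousSMul Circle X] {m : ℕ}
    {F : X → Matrix (Fin m) (Fin m) ℂ} (hF : Continuous F) (hl : ∀ x, Line (F x))
    {a : Fin m → ℤ} (hE : Equi F a)
    (h0 : ∀ p : X, (∀ z : Circle, z • p = p) → ∀ i, F p i i ≠ 0 → a i = 0) :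
    ∃ (K N : ℕ) (M : X → Matrix (Fin N) (Fin K → Fin m) ℂ), 0 < K ∧ Continuous M ∧
      (∀ x, M x * tpow K (F x) ≠ 0) ∧
      ∀ (z : Circle) (x : X), M (z • x) * tpow K (F (z • x)) * (M (z • x))ᴴ =
        M x * tpow K (F x) * (M x)ᴴ := by
  classical
  obtain ⟨K, hK, hiso⟩ := iso hF hl hE h0
  have hb : ∀ x : X, ∃ (i : Fin m) (c : X → ℂ), Continuous c ∧
      (∀ (w : Circle) (y : X), c (w • y) = ((w : ℂ) ^ a i) ^ K * c y) ∧ c x ≠ 0 ∧ F x i i ≠ 0 := by
    intro x
    obtain ⟨i, hi⟩ := diag_ne (hl x)
    obtain ⟨c, hc1, hc2, hc3⟩ := bump x (a i * K) (fun z hz => by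
      rw [_root_.zpow_mul, zpow_natCast]; exact hiso x z hz i hi)
    refine ⟨i, c, hc1, fun w y => ?_, hc3, hi⟩
    rw [hc2, _root_.zpow_mul, zpow_natCast]
  choose i c hcc hce hcx hix using hb
  have hFc : ∀ j k : Fin m, Continuous fun x => F x j k := fun j k => hF.matrix_elem j k
  obtain ⟨t, ht⟩ := isCompact_univ.elim_finite_subcover
    (fun x : X => {y : X | c x y ≠ 0} ∩ {y : X | F y (i x) (i x) ≠ 0})
    (fun x => (isOpen_ne_fun (hcc x) continuous_const).inter
      (isOpen_ne_fun (hFc _ _) continuous_const))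
    (fun x _ => mem_iUnion.2 ⟨x, hcx x, hix x⟩)
  obtain ⟨N, e⟩ : ∃ N : ℕ, Nonempty (Fin N ≃ t) := ⟨_, ⟨(t.equivFin).symm⟩⟩
  obtain ⟨e⟩ := e
  set d : Fin N → X → ℂ := fun j => c (e j : X) with hd
  set ι : Fin N → Fin m := fun j => i (e j : X) with hι
  have hdc : ∀ j, Continuous (d j) := fun j => hcc _
  have hde : ∀ j (w : Circle) (y : X), d j (w • y) = ((w : ℂ) ^ a (ι j)) ^ K * d j y :=
    fun j => hce _
  have hcov : ∀ x, ∃ j, d j x ≠ 0 ∧ F x (ι j) (ι j) ≠ 0 := by
    intro x
    obtain ⟨y, hy, hxy⟩ := mem_iUnion₂.1 (ht (mem_univ x))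
    refine ⟨e.symm ⟨y, hy⟩, ?_, ?_⟩
    · simp only [hd, Equiv.apply_symm_apply]; exact hxy.1
    · simp only [hι, Equiv.apply_symm_apply]; exact hxy.2
  set J : Fin N → Fin K → Fin m := fun j _ => ι j with hJ
  set M : X → Matrix (Fin N) (Fin K → Fin m) ℂ := fun x j I =>
    if I = J j then star (d j x) else 0 with hM
  have hMP : ∀ x (P : Matrix (Fin K → Fin m) (Fin K → Fin m) ℂ) j I,
      (M x * P) j I = star (d j x) * P (J j) I := by
    intro x P j I
    rw [Matrix.mul_apply]
    simp only [hM, ite_mul, zero_mul]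
    rw [Finset.sum_ite_eq' Finset.univ (J j)]
    simp
  have hMPM : ∀ x (P : Matrix (Fin K → Fin m) (Fin K → Fin m) ℂ) j k,
      (M x * P * (M x)ᴴ) j k = star (d j x) * P (J j) (J k) * d k x := by
    intro x P j k
    rw [Matrix.mul_apply]
    have : ∀ I, (M x * P) j I * (M x)ᴴ I k =
        if I = J k then star (d j x) * P (J j) (J k) * d k x else 0 := by
      intro I
      rw [hMP, Matrix.conjTranspose_apply]
      simp only [hM]
      split_ifs with h
      · rw [h, star_star]
      · simp
    rw [Finset.sum_congr rfl fun I _ => this I, Finset.sum_ite_eq' Finset.univ (J k)]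
    simp
  refine ⟨K, N, M, hK, ?_, ?_, ?_⟩
  · refine continuous_matrix fun j I => ?_
    simp only [hM]
    split_ifs with h
    · exact continuous_star.comp (hdc j)
    · exact continuous_const
  · intro x h
    obtain ⟨j, hj1, hj2⟩ := hcov x
    have h1 := congrFun (congrFun h j) (J j)
    rw [hMP] at h1
    simp only [tpow, hJ, Finset.prod_const, Finset.card_univ, Fintype.card_fin,
      Matrix.zero_apply] at h1
    rcases mul_eq_zero.1 h1 with h2 | h2
    · exact hj1 (star_eq_zero.1 h2)
    · exact hj2 ((pow_eq_zero_iff hK.ne').1 h2)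
  · intro z x
    have htz : ∀ j k, tpow K (F (z • x)) (J j) (J k) =
        ((z : ℂ) ^ a (ι j)) ^ K * tpow K (F x) (J j) (J k) * star (((z : ℂ) ^ a (ι k)) ^ K) := by
      intro j k
      simp only [tpow, hJ, Finset.prod_const, Finset.card_univ, Fintype.card_fin]
      rw [hE z x, mul_pow, mul_pow, star_pow]
    have hun : ∀ b : ℤ, star (((z : ℂ) ^ b) ^ K) * ((z : ℂ) ^ b) ^ K = 1 := by
      intro b
      rw [← starRingEnd_apply, mul_comm, Complex.mul_conj, Complex.normSq_eq_norm_sq, norm_pow,
        zpow_norm]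
      norm_num
    ext j k
    rw [hMPM, hMPM, hde, hde, htz, star_mul']
    calc star (((z : ℂ) ^ a (ι j)) ^ K) * star (d j x) *
          (((z : ℂ) ^ a (ι j)) ^ K * tpow K (F x) (J j) (J k) *
            star (((z : ℂ) ^ a (ι k)) ^ K)) * (((z : ℂ) ^ a (ι k)) ^ K * d k x)
        = (star (((z : ℂ) ^ a (ι j)) ^ K) * ((z : ℂ) ^ a (ι j)) ^ K) *
          (star (((z : ℂ) ^ a (ι k)) ^ K) * ((z : ℂ) ^ a (ι k)) ^ K) *
          (star (d j x) * tpow K (F x) (J j) (J k) * d k x) := by ring
      _ = _ := by rw [hun, hun, one_mul, one_mul]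

theorem push_line {α β : Type} [Fintype α] [Fintype β] {P : Matrix α α ℂ} (hP : Line P)
    {M : Matrix β α ℂ} (hM : M * P ≠ 0) : Line (push P M) := by
  have hpos := push_pos hP hM
  obtain ⟨v, hv, rfl⟩ := hP
  unfold push
  rw [push_aux] at hpos ⊢
  set w := M *ᵥ v with hw
  set n := (vecMulVec w (star w)).trace.re with hn
  have hww : star w ⬝ᵥ w = ((n : ℝ) : ℂ) := by
    rw [hn, trace_aux, Complex.ofReal_re, norm_sq_sum]
  refine ⟨((Real.sqrt n)⁻¹ : ℂ) • w, ?_, ?_⟩
  · rw [star_smul, smul_dotProduct, dotProduct_smul, hww]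
    have h1 : star ((Real.sqrt n : ℂ)⁻¹) = (Real.sqrt n : ℂ)⁻¹ := by
      rw [← Complex.ofReal_inv]; exact star_real _
    rw [h1, smul_eq_mul, smul_eq_mul, ← Complex.ofReal_inv, ← Complex.ofReal_mul,
      ← Complex.ofReal_mul]
    have h2 := Real.mul_self_sqrt hpos.le
    have h3 := (Real.sqrt_pos.2 hpos).ne'
    have : (Real.sqrt n)⁻¹ * ((Real.sqrt n)⁻¹ * n) = 1 := by
      nth_rw 3 [← h2]
      field_simp
    rw [this, Complex.ofReal_one]
  · ext j k
    simp only [Matrix.smul_apply, vecMulVec_apply, Pi.smul_apply, Pi.star_apply, smul_eq_mul,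
      star_mul']
    have h1 : star ((Real.sqrt n : ℂ)⁻¹) = (Real.sqrt n : ℂ)⁻¹ := by
      rw [← Complex.ofReal_inv]; exact star_real _
    rw [h1]
    have h2 : ((n⁻¹ : ℝ) : ℂ) = (Real.sqrt n : ℂ)⁻¹ * (Real.sqrt n : ℂ)⁻¹ := by
      rw [← Complex.ofReal_inv, ← Complex.ofReal_mul, ← mul_inv, Real.mul_self_sqrt hpos.le]
    rw [h2]; ring

theorem push_cont {X : Type} [TopologicalSpace X] {α β : Type} [Fintype α] [Fintype β]
    {P : X → Matrix α α ℂ} (hPc : Continuous P) (hP : ∀ x, Line (P x))
    {M : X → Matrix β α ℂ} (hMc : Continuous M) (hM : ∀ x, M x * P x ≠ 0) :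
    Continuous fun x => push (P x) (M x) := by
  have h : Continuous fun x => M x * P x * (M x)ᴴ :=
    (hMc.matrix_mul hPc).matrix_mul hMc.matrix_conjTranspose
  refine Continuous.smul (Complex.continuous_ofReal.comp (Continuous.inv₀ ?_ fun x =>
    (push_pos (hP x) (hM x)).ne')) h
  exact Complex.continuous_re.comp h.matrix_trace

/-- sections of a bundle over the orbit space without common zeros -/
theorem sections {X : Type} [TopologicalSpace X] [MulAction Circle X] {n N : ℕ}
    (hd : OrbitDim X n) {G : X → Matrix (Fin N) (Fin N) ℂ} (hG : Continuous G)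
    (hl : ∀ x, Line (G x)) (hinv : ∀ (z : Circle) (x : X), G (z • x) = G x) :
    ∃ S : X → Matrix (Fin n) (Fin N) ℂ, Continuous S ∧ ∀ x, S x * G x ≠ 0 := by
  classical
  have hGc : ∀ j k, Continuous fun x => G x j k := fun j k => hG.matrix_elem j k
  set Y : Fin N → Set X := fun l => {x | 1 / (N : ℝ) ≤ (G x l l).re} with hY
  have hYc : ∀ l, IsClosed (Y l) := fun l =>
    isClosed_le continuous_const (Complex.continuous_re.comp (hGc l l))
  have hYi : ∀ l (z : Circle), ∀ x ∈ Y l, z • x ∈ Y l := by
    intro l z x hx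
    show 1 / (N : ℝ) ≤ (G (z • x) l l).re
    rw [hinv]; exact hx
  set T : ℕ → Set X := fun j => {x | ∃ l : Fin N, l.1 < j ∧ x ∈ Y l} with hT
  have hTs : ∀ j (hj : j < N), T (j + 1) = T j ∪ Y ⟨j, hj⟩ := by
    intro j hj
    ext x
    constructor
    · rintro ⟨l, h1, h2⟩
      rcases Nat.lt_succ_iff_lt_or_eq.1 h1 with h | h
      · exact Or.inl ⟨l, h, h2⟩
      · right
        have : l = ⟨j, hj⟩ := Fin.ext h
        rwa [this] at h2
    · rintro (⟨l, h1, h2⟩ | h)
      · exact ⟨l, by omega, h2⟩
      · exact ⟨⟨j, hj⟩, Nat.lt_succ_self j, h⟩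
  have hT0 : T 0 = ∅ := by
    ext x
    simp [hT]
  have hTi : ∀ j (z : Circle), ∀ x ∈ T j, z • x ∈ T j := by
    rintro j z x ⟨l, h1, h2⟩
    exact ⟨l, h1, hYi l z x h2⟩
  have hTc : ∀ j, j ≤ N → IsClosed (T j) := by
    intro j
    induction j with
    | zero => intro _; rw [hT0]; exact isClosed_empty
    | succ j ih => intro hj; rw [hTs j (by omega)]; exact (ih (by omega)).union (hYc _)
  have key : ∀ j, j ≤ N → ∃ S : X → Matrix (Fin n) (Fin N) ℂ, ContinuousOn S (T j) ∧
      (∀ (z : Circle), ∀ x ∈ T j, S (z • x) = S x) ∧ ∀ x ∈ T j, S x * G x = S x ∧ S x ≠ 0 := by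
    intro j
    induction j with
    | zero =>
      intro _
      refine ⟨fun _ => 0, continuousOn_const, fun _ _ _ => rfl, ?_⟩
      rw [hT0]; intro x hx; exact hx.elim
    | succ j ih =>
      intro hj
      have hjN : j < N := by omega
      obtain ⟨S, hS1, hS2, hS3⟩ := ih (by omega)
      set l : Fin N := ⟨j, hjN⟩ with hl'
      have hNpos : (0 : ℝ) < N := by exact_mod_cast (show 0 < N by omega)
      set f : X → Fin n → ℂ := fun x r => (S x * G x) r l with hf
      have hll : ∀ x ∈ Y l, G x l l ≠ 0 := by
        intro x hx h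
        have : 1 / (N : ℝ) ≤ (G x l l).re := hx
        rw [h, Complex.zero_re] at this
        have h2 : 0 < 1 / (N : ℝ) := by positivity
        linarith
      have hfne : ∀ x ∈ T j ∩ Y l, f x ≠ 0 := by
        rintro x ⟨hx1, hx2⟩ h
        obtain ⟨h1, h2⟩ := hS3 x hx1
        obtain ⟨v, hv, hGv⟩ := hl x
        have h3 := hll x hx2
        rw [hGv, vecMulVec_apply] at h3
        have h4 : star v l ≠ 0 := right_ne_zero_of_mul h3
        apply h2
        rw [← h1, hGv, Matrix.mul_vecMulVec]
        have h5 : S x *ᵥ v = 0 := by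
          ext r
          have := congrFun h r
          simp only [hf, Pi.zero_apply] at this
          rw [hGv, Matrix.mul_vecMulVec, vecMulVec_apply] at this
          rcases mul_eq_zero.1 this with h6 | h6
          · exact h6
          · exact absurd h6 h4
        rw [h5]
        ext r k; simp [vecMulVec_apply]
      obtain ⟨g, hg1, hg2, hg3, hg4⟩ := hd (T j ∩ Y l) ((hTc j (by omega)).inter (hYc l))
        (fun z x hx => ⟨hTi j z x hx.1, hYi l z x hx.2⟩) f (by
          refine continuousOn_pi.2 fun r => ?_
          have h1 : ContinuousOn (fun x => S x * G x) (T j) := by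
            refine continuousOn_iff_continuous_domRestrict.2 ?_
            exact (continuousOn_iff_continuous_domRestrict.1 hS1).matrix_mul
              (hG.comp continuous_subtype_val)
          have h2 : ContinuousOn (fun x => (S x * G x) r l) (T j) :=
            continuousOn_iff_continuous_domRestrict.2
              ((continuousOn_iff_continuous_domRestrict.1 h1).matrix_elem r l)
          exact h2.mono inter_subset_left)
        (fun z x hx => by
          simp only [hf]
          rw [hS2 z x hx.1, hinv]) hfne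
      set S' : X → Matrix (Fin n) (Fin N) ℂ := fun x r k => g x r * G x l k / G x l l with hS'
      have hS'c : ContinuousOn S' (Y l) := by
        refine continuousOn_iff_continuous_domRestrict.2 (continuous_matrix fun r k => ?_)
        refine Continuous.div ?_ ((hGc l l).comp continuous_subtype_val) fun x => hll x.1 x.2
        exact ((((continuous_apply r).comp hg1)).comp continuous_subtype_val).mul
          ((hGc l k).comp continuous_subtype_val)
      have hSS : ∀ x ∈ T j ∩ Y l, S x = S' x := by
        intro x hx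
        obtain ⟨h1, h2⟩ := hS3 x hx.1
        obtain ⟨v, hv, hGv⟩ := hl x
        have h3 := hll x hx.2
        rw [hGv, vecMulVec_apply] at h3
        have h4 : star v l ≠ 0 := right_ne_zero_of_mul h3
        have h5 : v l ≠ 0 := left_ne_zero_of_mul h3
        ext r k
        simp only [hS']
        rw [hg4 x hx]
        simp only [hf]
        rw [hGv, Matrix.mul_vecMulVec]
        simp only [vecMulVec_apply]
        have h6 : S x r k = (S x *ᵥ v) r * star v k := by
          conv_lhs => rw [← h1, hGv, Matrix.mul_vecMulVec, vecMulVec_apply]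
        rw [h6]
        field_simp
      refine ⟨fun x => if x ∈ T j then S x else S' x, ?_, ?_, ?_⟩
      · rw [hTs j hjN]
        have hA : ContinuousOn (fun x => if x ∈ T j then S x else S' x) (T j) :=
          hS1.congr fun x hx => by simp only [if_pos hx]
        have hB : ContinuousOn (fun x => if x ∈ T j then S x else S' x) (Y l) := by
          refine hS'c.congr fun x hx => ?_
          by_cases h : x ∈ T j
          · simp only [if_pos h]; exact hSS x ⟨h, hx⟩
          · simp only [if_neg h]
        exact hA.union_of_isClosed hB (hTc j (by omega)) (hYc l)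
      · intro z x hx
        rw [hTs j hjN] at hx
        by_cases h : x ∈ T j
        · simp only [if_pos h, if_pos (hTi j z x h)]
          exact hS2 z x h
        · have h2 : z • x ∉ T j := by
            intro h3
            apply h
            have := hTi j z⁻¹ _ h3
            rwa [inv_smul_smul] at this
          simp only [if_neg h, if_neg h2]
          ext r k
          simp only [hS']
          rw [hg2, hinv]
      · intro x hx
        rw [hTs j hjN] at hx
        by_cases h : x ∈ T j
        · simp only [if_pos h]; exact hS3 x h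
        · have hxY : x ∈ Y l := hx.resolve_left h
          simp only [if_neg h]
          obtain ⟨v, hv, hGv⟩ := hl x
          constructor
          · ext r k
            rw [Matrix.mul_apply]
            simp only [hS']
            have hGG : ∑ q, G x l q * G x q k = G x l k := by
              rw [← Matrix.mul_apply, hGv, Matrix.vecMulVec_mul_vecMulVec, hv]
              simp
            calc ∑ q, g x r * G x l q / G x l l * G x q k
                = g x r / G x l l * ∑ q, G x l q * G x q k := by
                  rw [Finset.mul_sum]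
                  refine Finset.sum_congr rfl fun q _ => ?_
                  ring
              _ = _ := by rw [hGG]; ring
          · intro h0
            obtain ⟨r, hr⟩ := Function.ne_iff.1 (hg3 x)
            have := congrFun (congrFun h0 r) l
            simp only [hS', Matrix.zero_apply] at this
            rw [mul_div_assoc, div_self (hll x hxY), mul_one] at this
            exact hr this
  obtain ⟨S, hS1, hS2, hS3⟩ := key N le_rfl
  have hTN : T N = univ := by
    refine eq_univ_of_forall fun x => ?_
    by_contra h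
    have h1 : ∀ l : Fin N, (G x l l).re < 1 / (N : ℝ) := by
      intro l
      by_contra h2
      exact h ⟨l, l.2, not_lt.1 h2⟩
    obtain ⟨v, hv, hGv⟩ := hl x
    have h2 : ∑ l, (G x l l).re = 1 := by
      have h3 : ∑ l, G x l l = 1 := by
        rw [← hv, hGv]
        simp only [vecMulVec_apply, dotProduct, Pi.star_apply]
        exact Finset.sum_congr rfl fun _ _ => mul_comm _ _
      have := congrArg Complex.re h3
      rwa [Complex.re_sum, Complex.one_re] at this
    rcases Nat.eq_zero_or_pos N with hN | hN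
    · subst hN
      simp at h2
    · have h4 : ∑ l : Fin N, (G x l l).re < ∑ _l : Fin N, 1 / (N : ℝ) :=
        Finset.sum_lt_sum_of_nonempty (by
          haveI : Nonempty (Fin N) := ⟨⟨0, hN⟩⟩
          exact Finset.univ_nonempty) fun l _ => h1 l
      rw [h2, Finset.sum_const, Finset.card_univ, Fintype.card_fin, nsmul_eq_mul] at h4
      have : (N : ℝ) ≠ 0 := by positivity
      rw [mul_one_div_cancel this] at h4
      exact lt_irrefl _ h4
  rw [hTN] at hS1 hS3
  refine ⟨S, continuousOn_univ.1 hS1, fun x h => ?_⟩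
  obtain ⟨h1, h2⟩ := hS3 x (mem_univ x)
  exact h2 (h1 ▸ h)

end Pool.Agent.L7h84.CA
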