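import Pool.Agent.L7h84.CA.Defs
import Pool.Agent.L7h84.CA.Alg

/-!
# Isotropy groups of a circle action and weights of a line bundle (project CA, helper84)
-/

set_option autoImplicit false

open Set Topology Matrix

noncomputable section

namespace Pool.Agent.L7h84.CA

/-- the number `exp (2 π i t)` -/
theorem exp_add_int (t : ℝ) (k : ℤ) :
    Circle.exp (2 * Real.pi * (t + k)) = Circle.exp (2 * Real.pi * t) := by
  have h : 2 * Real.pi * (t + k) = 2 * Real.pi * t + k * (2 * Real.pi) := by ring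
  rw [h]
  exact Circle.periodic_exp.int_mul k _

theorem exp_pow (t : ℝ) (l : ℕ) : (Circle.exp t) ^ l = Circle.exp (l * t) := by
  induction l with
  | zero => simp
  | succ l ih => rw [pow_succ, ih, ← Circle.exp_add]; congr 1; push_cast; ring

/-- a finite order from a set which the powers do not meet -/
theorem pow_one_of_avoid (A : Set Circle) (hA : IsOpen A) (hne : A.Nonempty) :
    ∃ k : ℕ, 0 < k ∧ ∀ z : Circle, (∀ l : ℕ, z ^ l ∉ A) → z ^ k = 1 := by
  obtain ⟨z₀, hz₀⟩ := hne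
  have hpi : (0 : ℝ) < 2 * Real.pi := by positivity
  obtain ⟨α, hα⟩ : ∃ α : ℝ, Circle.exp (2 * Real.pi * α) = z₀ := by
    refine ⟨Complex.arg z₀ / (2 * Real.pi), ?_⟩
    rw [mul_div_cancel₀ _ hpi.ne', Circle.exp_arg]
  have hα0 : Circle.exp (2 * Real.pi * Int.fract α) = z₀ := by
    rw [← hα]
    have h := exp_add_int (Int.fract α) ⌊α⌋
    rw [Int.fract_add_floor] at h
    exact h.symm
  set β := Int.fract α with hβ
  have hβ0 : 0 ≤ β := Int.fract_nonneg _
  have hβ1 : β < 1 := Int.fract_lt_one _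
  have hcont : Continuous fun t : ℝ => Circle.exp (2 * Real.pi * t) :=
    Circle.exp.continuous.comp (continuous_const.mul continuous_id)
  have hopen : IsOpen ((fun t : ℝ => Circle.exp (2 * Real.pi * t)) ⁻¹' A) := hA.preimage hcont
  have hmem : β ∈ (fun t : ℝ => Circle.exp (2 * Real.pi * t)) ⁻¹' A := by
    show Circle.exp (2 * Real.pi * β) ∈ A
    rw [hα0]; exact hz₀
  obtain ⟨η, hη, hball⟩ := Metric.isOpen_iff.1 hopen β hmem
  have hA1 : ∀ t : ℝ, |t - β| < η → Circle.exp (2 * Real.pi * t) ∈ A := fun t ht => hball (by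
    rw [Metric.mem_ball, Real.dist_eq]; exact ht)
  have hA2 : ∀ t : ℝ, |t - (β - 1)| < η → Circle.exp (2 * Real.pi * t) ∈ A := by
    intro t ht
    have h := exp_add_int t 1
    rw [← h]
    refine hA1 _ ?_
    push_cast
    have : t + 1 - β = t - (β - 1) := by ring
    rw [this]; exact ht
  obtain ⟨n, hn⟩ := exists_nat_one_div_lt hη
  refine ⟨(n + 1).factorial, Nat.factorial_pos _, fun z hz => ?_⟩
  obtain ⟨ξ, hξ⟩ : ∃ ξ : ℝ, Circle.exp (2 * Real.pi * ξ) = z := by
    refine ⟨Complex.arg z / (2 * Real.pi), ?_⟩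
    rw [mul_div_cancel₀ _ hpi.ne', Circle.exp_arg]
  obtain ⟨j, k, hk0, hkn, hjk⟩ := Real.exists_int_int_abs_mul_sub_le ξ (n := n + 1) (Nat.succ_pos _)
  lift k to ℕ using hk0.le
  have hk0' : 0 < k := by exact_mod_cast hk0
  have hkn' : k ≤ n + 1 := by exact_mod_cast hkn
  have hzk : z ^ k = Circle.exp (2 * Real.pi * ((k : ℝ) * ξ - j)) := by
    rw [← hξ, exp_pow]
    have h := exp_add_int ((k : ℝ) * ξ - j) j
    rw [← h]
    congr 1
    ring
  set δ : ℝ := (k : ℝ) * ξ - j with hδ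
  have hδn : |δ| ≤ 1 / ((n : ℝ) + 1) := by
    have : |δ| ≤ 1 / (((n + 1 : ℕ) : ℝ) + 1) := by
      rw [hδ]; exact_mod_cast hjk
    refine this.trans ?_
    apply one_div_le_one_div_of_le (by positivity)
    push_cast; linarith
  have hδη : |δ| < η := lt_of_le_of_lt hδn hn
  rcases eq_or_ne δ 0 with h0 | h0
  · have hzk1 : z ^ k = 1 := by
      rw [hzk, h0, mul_zero, Circle.exp_zero]
    have hdvd : k ∣ (n + 1).factorial := Nat.dvd_factorial hk0' hkn'
    obtain ⟨q, hq⟩ := hdvd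
    rw [hq, pow_mul, hzk1, one_pow]
  · exfalso
    rcases lt_or_gt_of_ne h0 with hneg | hpos
    · -- δ < 0
      set l : ℕ := ⌊(β - 1) / δ⌋₊ with hl
      have hq0 : 0 ≤ (β - 1) / δ := div_nonneg_of_nonpos (by linarith) hneg.le
      have h1 : (l : ℝ) ≤ (β - 1) / δ := Nat.floor_le hq0
      have h2 : (β - 1) / δ < l + 1 := Nat.lt_floor_add_one _
      have h3 : (β - 1) ≤ l * δ := by
        have := mul_le_mul_of_nonpos_right h1 hneg.le
        rwa [div_mul_cancel₀ _ h0] at this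
      have h4 : l * δ + δ < β - 1 := by
        have := mul_lt_mul_of_neg_right h2 hneg
        rw [div_mul_cancel₀ _ h0] at this
        linarith
      refine hz (k * l) ?_
      rw [pow_mul, hzk, exp_pow]
      have h5 : (l : ℝ) * (2 * Real.pi * δ) = 2 * Real.pi * (l * δ) := by ring
      rw [h5]
      refine hA2 _ ?_
      rw [abs_of_nonneg (by linarith)]
      have : |δ| = -δ := abs_of_neg hneg
      rw [this] at hδη
      linarith
    · set l : ℕ := ⌊β / δ⌋₊ with hl
      have hq0 : 0 ≤ β / δ := div_nonneg hβ0 hpos.le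
      have h1 : (l : ℝ) ≤ β / δ := Nat.floor_le hq0
      have h2 : β / δ < l + 1 := Nat.lt_floor_add_one _
      have h3 : l * δ ≤ β := by
        have := mul_le_mul_of_nonneg_right h1 hpos.le
        rwa [div_mul_cancel₀ _ h0] at this
      have h4 : β < l * δ + δ := by
        have := mul_lt_mul_of_pos_right h2 hpos
        rw [div_mul_cancel₀ _ h0] at this
        linarith
      refine hz (k * l) ?_
      rw [pow_mul, hzk, exp_pow]
      have h5 : (l : ℝ) * (2 * Real.pi * δ) = 2 * Real.pi * (l * δ) := by ring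
      rw [h5]
      refine hA1 _ ?_
      rw [abs_of_nonpos (by linarith)]
      have : |δ| = δ := abs_of_pos hpos
      rw [this] at hδη
      linarith

theorem diag_ne {m : ℕ} {P : Matrix (Fin m) (Fin m) ℂ} (hP : IsLine P) : ∃ i, P i i ≠ 0 := by
  obtain ⟨v, hv, rfl⟩ := hP
  by_contra h
  push Not at h
  have h0 : ∀ i, v i = 0 := by
    intro i
    have := h i
    rw [vecMulVec_apply] at this
    rcases mul_eq_zero.1 this with h1 | h1
    · exact h1
    · exact star_eq_zero.1 h1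
  have : (star v ⬝ᵥ v : ℂ) = 0 := by
    simp [dotProduct, h0]
  rw [hv] at this
  exact one_ne_zero this

theorem entry_ne {m : ℕ} {P : Matrix (Fin m) (Fin m) ℂ} (hP : IsLine P) {i j : Fin m}
    (hi : P i i ≠ 0) (hj : P j j ≠ 0) : P i j ≠ 0 := by
  obtain ⟨v, hv, rfl⟩ := hP
  rw [vecMulVec_apply] at hi hj ⊢
  exact mul_ne_zero (left_ne_zero_of_mul hi) (right_ne_zero_of_mul hj)

theorem zpow_norm (z : Circle) (a : ℤ) : ‖(z : ℂ) ^ a‖ = 1 := by
  rw [norm_zpow, Circle.norm_coe, _root_.one_zpow]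

theorem eq_of_mul_star {z w : ℂ} (hw : ‖w‖ = 1) (h : z * star w = 1) : z = w := by
  have h1 : star w * w = 1 := by
    rw [← starRingEnd_apply, mul_comm, Complex.mul_conj, Complex.normSq_eq_norm_sq, hw]
    norm_num
  calc z = z * (star w * w) := by rw [h1, mul_one]
    _ = (z * star w) * w := by ring
    _ = w := by rw [h, one_mul]

/-- weights of the isotropy group on the support are equal -/
theorem isot {X : Type} [MulAction Circle X] {m : ℕ} {F : X → Matrix (Fin m) (Fin m) ℂ}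
    {a : Fin m → ℤ} (hE : Equi F a) {x : X} (hl : IsLine (F x)) {z : Circle} (hz : z • x = x)
    {i j : Fin m} (hi : F x i i ≠ 0) (hj : F x j j ≠ 0) : (z : ℂ) ^ a i = (z : ℂ) ^ a j := by
  have h1 := hE z x i j
  rw [hz] at h1
  have h2 := entry_ne hl hi hj
  refine eq_of_mul_star (zpow_norm z _) ?_
  apply mul_right_cancel₀ h2
  rw [one_mul]
  calc (z : ℂ) ^ a i * star ((z : ℂ) ^ a j) * F x i j
      = (z : ℂ) ^ a i * F x i j * star ((z : ℂ) ^ a j) := by ring
    _ = F x i j := h1.symm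

theorem iso_loc {X : Type} [MetricSpace X] [MulAction Circle X] [ContinuousSMul Circle X] {m : ℕ}
    {F : X → Matrix (Fin m) (Fin m) ℂ} (hF : Continuous F) (hl : ∀ x, IsLine (F x))
    {a : Fin m → ℤ} (hE : Equi F a)
    (h0 : ∀ p : X, (∀ z : Circle, z • p = p) → ∀ i, F p i i ≠ 0 → a i = 0) (x₀ : X) :
    ∃ N : Set X, IsOpen N ∧ x₀ ∈ N ∧ ∃ K : ℕ, 0 < K ∧ ∀ x ∈ N, ∀ z : Circle, z • x = x →
      ∀ i, F x i i ≠ 0 → ((z : ℂ) ^ a i) ^ K = 1 := by
  by_cases hfix : ∀ z : Circle, z • x₀ = x₀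
  · obtain ⟨i₀, hi₀⟩ := diag_ne (hl x₀)
    have ha := h0 x₀ hfix i₀ hi₀
    refine ⟨{x | F x i₀ i₀ ≠ 0}, isOpen_ne_fun ((hF.matrix_elem i₀ i₀)) continuous_const, hi₀,
      1, one_pos, ?_⟩
    intro x hx z hz i hi
    rw [pow_one, isot hE (hl x) hz hi hx, ha, zpow_zero]
  · push Not at hfix
    obtain ⟨z₀, hz₀⟩ := hfix
    have hop : IsOpen {q : Circle × X | q.1 • q.2 ≠ q.2} :=
      isOpen_ne_fun continuous_smul continuous_snd
    obtain ⟨A, N, hA, hN, hzA, hxN, hAN⟩ := isOpen_prod_iff.1 hop z₀ x₀ hz₀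
    obtain ⟨k, hk, hpow⟩ := pow_one_of_avoid A hA ⟨z₀, hzA⟩
    refine ⟨N, hN, hxN, k, hk, ?_⟩
    intro x hx z hz i _
    have h1 : ∀ l : ℕ, z ^ l • x = x := by
      intro l
      induction l with
      | zero => simp
      | succ l ih => rw [pow_succ, mul_smul, hz, ih]
    have h2 : z ^ k = 1 := hpow z fun l hlA => hAN (mk_mem_prod hlA hx) (h1 l)
    have h3 : ((z : ℂ)) ^ k = 1 := by
      have := congrArg (fun w : Circle => (w : ℂ)) h2
      simpa using this
    rw [← zpow_natCast, ← _root_.zpow_mul, mul_comm, _root_.zpow_mul, zpow_natCast, h3, _root_.one_zpow]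

theorem iso {X : Type} [MetricSpace X] [CompactSpace X] [MulAction Circle X]
    [ContinuousSMul Circle X] {m : ℕ}
    {F : X → Matrix (Fin m) (Fin m) ℂ} (hF : Continuous F) (hl : ∀ x, IsLine (F x))
    {a : Fin m → ℤ} (hE : Equi F a)
    (h0 : ∀ p : X, (∀ z : Circle, z • p = p) → ∀ i, F p i i ≠ 0 → a i = 0) :
    ∃ K : ℕ, 0 < K ∧ ∀ (x : X) (z : Circle), z • x = x →
      ∀ i, F x i i ≠ 0 → ((z : ℂ) ^ a i) ^ K = 1 := by
  choose N hN hxN K hK hNK using iso_loc hF hl hE h0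
  obtain ⟨t, ht⟩ := isCompact_univ.elim_finite_subcover N hN (fun x _ => mem_iUnion.2 ⟨x, hxN x⟩)
  refine ⟨∏ x ∈ t, K x, Finset.prod_pos fun x _ => hK x, ?_⟩
  intro x z hz i hi
  obtain ⟨y, hy, hxy⟩ := mem_iUnion₂.1 (ht (mem_univ x))
  have h1 := hNK y x hxy z hz i hi
  obtain ⟨q, hq⟩ := Finset.dvd_prod_of_mem K hy
  rw [hq, pow_mul, h1, one_pow]

end Pool.Agent.L7h84.CA
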