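import Pool.Agent.L7h84.CA.Bump

/-!
# Tensor powers of a line bundle, joins of lines (project CA, helper84)
-/

set_option autoImplicit false

open Set Topology Matrix

noncomputable section

namespace Pool.Agent.L7h84.CA

theorem norm_sq_sum {ι : Type} [Fintype ι] (v : ι → ℂ) :
    star v ⬝ᵥ v = ((∑ i, ‖v i‖ ^ 2 : ℝ) : ℂ) := by
  simp only [dotProduct, Pi.star_apply, Complex.ofReal_sum]
  refine Finset.sum_congr rfl fun i _ => ?_
  rw [← starRingEnd_apply, mul_comm, Complex.mul_conj, Complex.normSq_eq_norm_sq]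

theorem star_real (y : ℝ) : star (y : ℂ) = (y : ℂ) := Complex.conj_ofReal y

theorem tpow_norm {m : ℕ} (K : ℕ) {v : Fin m → ℂ} (hv : star v ⬝ᵥ v = 1) :
    star (fun I : Fin K → Fin m => ∏ k, v (I k)) ⬝ᵥ (fun I : Fin K → Fin m => ∏ k, v (I k)) = 1 := by
  have h1 : (∏ _k : Fin K, ∑ i : Fin m, star (v i) * v i) = 1 := by
    have : ∑ i : Fin m, star (v i) * v i = 1 := hv
    rw [Finset.prod_congr rfl fun _ _ => this, Finset.prod_const_one]
  rw [Finset.prod_univ_sum] at h1
  rw [← h1]
  simp only [dotProduct, Pi.star_apply, Fintype.piFinset_univ]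
  refine Finset.sum_congr rfl fun I _ => ?_
  rw [star_prod, ← Finset.prod_mul_distrib]

theorem tpow_line {m : ℕ} (K : ℕ) {P : Matrix (Fin m) (Fin m) ℂ} (hP : Line P) :
    Line (tpow K P) := by
  obtain ⟨v, hv, rfl⟩ := hP
  refine ⟨fun I => ∏ k, v (I k), tpow_norm K hv, ?_⟩
  ext I J
  simp only [tpow, vecMulVec_apply, Pi.star_apply]
  rw [Finset.prod_mul_distrib, star_prod]

/-- the projection on the image of the line `P` under the matrix `M` -/
def push {α β : Type} [Fintype α] [Fintype β] (P : Matrix α α ℂ) (M : Matrix β α ℂ) :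
    Matrix β β ℂ := ((((M * P * Mᴴ).trace.re)⁻¹ : ℝ) : ℂ) • (M * P * Mᴴ)

theorem push_aux {α β : Type} [Fintype α] [Fintype β] {v : α → ℂ} {M : Matrix β α ℂ} :
    M * vecMulVec v (star v) * Mᴴ = vecMulVec (M *ᵥ v) (star (M *ᵥ v)) := by
  rw [Matrix.mul_vecMulVec, Matrix.vecMulVec_mul, Matrix.star_mulVec]

theorem trace_aux {β : Type} [Fintype β] (w : β → ℂ) :
    (vecMulVec w (star w)).trace = ((∑ i, ‖w i‖ ^ 2 : ℝ) : ℂ) := by
  rw [← norm_sq_sum]
  simp [trace, vecMulVec, dotProduct, mul_comm]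

theorem push_pos {α β : Type} [Fintype α] [Fintype β] {P : Matrix α α ℂ} (hP : Line P)
    {M : Matrix β α ℂ} (hM : M * P ≠ 0) : 0 < (M * P * Mᴴ).trace.re := by
  obtain ⟨v, hv, rfl⟩ := hP
  rw [push_aux, trace_aux, Complex.ofReal_re]
  have hne : M *ᵥ v ≠ 0 := by
    intro h
    apply hM
    rw [Matrix.mul_vecMulVec, h]
    ext i j; simp [vecMulVec_apply]
  obtain ⟨i, hi⟩ := Function.ne_iff.1 hne
  refine Finset.sum_pos' (fun i _ => by positivity) ⟨i, Finset.mem_univ _, ?_⟩
  have := norm_pos_iff.2 hi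
  positivity

/-- the join homotopy from a line to its image under a matrix -/
theorem join {X : Type} [TopologicalSpace X] {α β : Type} [Fintype α] [Fintype β]
    {P : X → Matrix α α ℂ} (hPc : Continuous P) (hP : ∀ x, Line (P x))
    {M : X → Matrix β α ℂ} (hMc : Continuous M) (hM : ∀ x, M x * P x ≠ 0) :
    ∃ H : X → ℝ → Matrix (α ⊕ β) (α ⊕ β) ℂ, Continuous (fun q : X × ℝ => H q.1 q.2) ∧
      (∀ x s, Line (H x s)) ∧ (∀ x, H x 0 = fromBlocks (P x) 0 0 0) ∧
      (∀ x, H x 1 = fromBlocks 0 0 0 (push (P x) (M x))) := by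
  set n : X → ℝ := fun x => (M x * P x * (M x)ᴴ).trace.re with hn
  have hnc : Continuous n := by
    refine Complex.continuous_re.comp (Continuous.matrix_trace ?_)
    exact (hMc.matrix_mul hPc).matrix_mul hMc.matrix_conjTranspose
  have hnp : ∀ x, 0 < n x := fun x => push_pos (hP x) (hM x)
  set ρ : X → ℝ := fun x => Real.sqrt (n x) with hρ
  have hρc : Continuous ρ := Real.continuous_sqrt.comp hnc
  have hρp : ∀ x, 0 < ρ x := fun x => Real.sqrt_pos.2 (hnp x)
  have hρ2 : ∀ x, ρ x ^ 2 = n x := fun x => Real.sq_sqrt (hnp x).le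
  set co : ℝ → ℝ := fun s => Real.cos (Real.pi / 2 * s) with hco
  set si : ℝ → ℝ := fun s => Real.sin (Real.pi / 2 * s) with hsi
  have hcoc : Continuous co := Real.continuous_cos.comp (continuous_const.mul continuous_id)
  have hsic : Continuous si := Real.continuous_sin.comp (continuous_const.mul continuous_id)
  have hcs : ∀ s, co s ^ 2 + si s ^ 2 = 1 := fun s => Real.cos_sq_add_sin_sq _
  set H : X → ℝ → Matrix (α ⊕ β) (α ⊕ β) ℂ := fun x s =>
    fromBlocks (((co s ^ 2 : ℝ) : ℂ) • P x)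
      (((co s * si s / ρ x : ℝ) : ℂ) • (P x * (M x)ᴴ))
      (((co s * si s / ρ x : ℝ) : ℂ) • (M x * P x))
      (((si s ^ 2 / n x : ℝ) : ℂ) • (M x * P x * (M x)ᴴ)) with hH
  have hc1 : Continuous fun q : X × ℝ => ((co q.2 ^ 2 : ℝ) : ℂ) :=
    Complex.continuous_ofReal.comp ((hcoc.comp continuous_snd).pow 2)
  have hc2 : Continuous fun q : X × ℝ => ((co q.2 * si q.2 / ρ q.1 : ℝ) : ℂ) :=
    Complex.continuous_ofReal.comp (((hcoc.comp continuous_snd).mul (hsic.comp continuous_snd)).div
      (hρc.comp continuous_fst) fun q => (hρp _).ne')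
  have hc3 : Continuous fun q : X × ℝ => ((si q.2 ^ 2 / n q.1 : ℝ) : ℂ) :=
    Complex.continuous_ofReal.comp (((hsic.comp continuous_snd).pow 2).div
      (hnc.comp continuous_fst) fun q => (hnp _).ne')
  have hP1 : Continuous fun q : X × ℝ => P q.1 := hPc.comp continuous_fst
  have hM1 : Continuous fun q : X × ℝ => M q.1 := hMc.comp continuous_fst
  refine ⟨H, ?_, ?_, ?_, ?_⟩
  · refine Continuous.matrix_fromBlocks (hc1.smul hP1)
      (hc2.smul (hP1.matrix_mul hM1.matrix_conjTranspose)) (hc2.smul (hM1.matrix_mul hP1))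
      (hc3.smul ((hM1.matrix_mul hP1).matrix_mul hM1.matrix_conjTranspose))
  · intro x s
    obtain ⟨V, hVn, hPV⟩ := hP x
    set u : β → ℂ := M x *ᵥ V with hu
    have hun : star u ⬝ᵥ u = ((n x : ℝ) : ℂ) := by
      simp only [hn]
      rw [hPV, push_aux, trace_aux, Complex.ofReal_re, norm_sq_sum]
    have hMP : M x * P x = vecMulVec u (star V) := by
      rw [hPV, Matrix.mul_vecMulVec]
    have hPM : P x * (M x)ᴴ = vecMulVec V (star u) := by
      rw [hPV, Matrix.vecMulVec_mul, hu, Matrix.star_mulVec]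
    have hMPM : M x * P x * (M x)ᴴ = vecMulVec u (star u) := by
      rw [hPV, push_aux]
    refine ⟨Sum.elim (fun I => (co s : ℂ) * V I) (fun j => ((si s / ρ x : ℝ) : ℂ) * u j), ?_, ?_⟩
    · have h1 : star (Sum.elim (fun I => (co s : ℂ) * V I) (fun j => ((si s / ρ x : ℝ) : ℂ) * u j))
          ⬝ᵥ (Sum.elim (fun I => (co s : ℂ) * V I) (fun j => ((si s / ρ x : ℝ) : ℂ) * u j)) =
          (co s : ℂ) ^ 2 * (star V ⬝ᵥ V) + ((si s / ρ x : ℝ) : ℂ) ^ 2 * (star u ⬝ᵥ u) := by
        simp only [dotProduct, Pi.star_apply, Fintype.sum_sum_type, Sum.elim_inl, Sum.elim_inr,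
          star_mul', Finset.mul_sum]
        congr 1
        · refine Finset.sum_congr rfl fun I _ => ?_
          rw [star_real]; ring
        · refine Finset.sum_congr rfl fun I _ => ?_
          rw [star_real]; ring
      rw [h1, hVn, hun, mul_one]
      have h2 : ((si s / ρ x : ℝ) : ℂ) ^ 2 * ((n x : ℝ) : ℂ) = ((si s ^ 2 : ℝ) : ℂ) := by
        rw [← Complex.ofReal_pow, ← Complex.ofReal_mul]
        congr 1
        rw [← hρ2 x]
        have := (hρp x).ne'
        field_simp
      rw [h2, ← Complex.ofReal_pow, ← Complex.ofReal_add, hcs, Complex.ofReal_one]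
    · ext q q'
      rcases q with I | j <;> rcases q' with I' | k
      · simp only [hH, fromBlocks_apply₁₁, vecMulVec_apply, Sum.elim_inl, Pi.star_apply, star_mul',
          star_real, hPV, Matrix.smul_apply, smul_eq_mul]
        push_cast; ring
      · simp only [hH, fromBlocks_apply₁₂, vecMulVec_apply, Sum.elim_inl, Sum.elim_inr,
          Pi.star_apply, star_mul', star_real, hPM, Matrix.smul_apply, smul_eq_mul]
        push_cast; ring
      · simp only [hH, fromBlocks_apply₂₁, vecMulVec_apply, Sum.elim_inl, Sum.elim_inr,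
          Pi.star_apply, star_mul', star_real, hMP, Matrix.smul_apply, smul_eq_mul]
        push_cast; ring
      · simp only [hH, fromBlocks_apply₂₂, vecMulVec_apply, Sum.elim_inr,
          Pi.star_apply, star_mul', star_real, hMPM, Matrix.smul_apply, smul_eq_mul]
        rw [← hρ2 x]
        push_cast
        have := (hρp x).ne'
        have h3 : ((ρ x : ℝ) : ℂ) ≠ 0 := by exact_mod_cast this
        field_simp
  · intro x
    have h1 : co 0 = 1 := by simp [hco]
    have h2 : si 0 = 0 := by simp [hsi]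
    simp only [hH, h1, h2]
    congr 1 <;> simp
  · intro x
    have h1 : co 1 = 0 := by simp [hco]
    have h2 : si 1 = 1 := by simp [hsi]
    simp only [hH, h1, h2, push]
    congr 1
    · simp
    · simp
    · simp
    · simp [hn]

end Pool.Agent.L7h84.CA
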