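import Pool.Agent.L7h84.CA.Fam

/-!
# Suspended orbit maps (project CA, helper84)
-/

set_option autoImplicit false

open Set Topology

noncomputable section

namespace Pool.Agent.L7h84.CA

open Pool.Agent.Y489.GE

theorem susp {X : Type} [MetricSpace X] [CompactSpace X] {r : ℝ} (hr : 0 < r) (hX : GeodSpace X)
    (hU : UniqGeod X r) {W : Type} [TopologicalSpace W] {φ : W → X → X}
    (hφ : Continuous fun z : W × X => φ z.1 z.2) {lam : ℝ}
    (hlam : ∀ w x y, dist (φ w x) (φ w y) ≤ lam * dist x y) {p q : X} (hp : ∀ w, φ w p = p)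
    (hq : ∀ w, φ w q = q) {c : ℝ → X} (hc0 : c 0 = p) (hc1 : c 1 = q)
    (hcd : ∀ s ∈ Icc (0 : ℝ) 1, ∀ t ∈ Icc (0 : ℝ) 1, dist (c s) (c t) = |s - t| * dist p q)
    (hno : ¬ ClosedGeod X ((1 + lam) * dist p q)) :
    ∃ E : W → ℝ → ℝ → X, Continuous (fun z : W × ℝ × ℝ => E z.1 z.2.1 z.2.2) ∧
      (∀ w, ∀ t ∈ Icc (0 : ℝ) 1, E w t 0 = φ w (c t)) ∧
      (∀ w w' t, E w t 1 = E w' t 1) ∧ ∀ w s, E w 0 s = p ∧ E w 1 s = q := by
  obtain ⟨D, hDc, hD1, hD2, hD3, hD4⟩ := fam hr hX hU hφ hlam hp hq hc0 hc1 hcd hno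
  have hcc : Continuous fun t : ℝ => c (cl t) := by
    refine continuous_iff_continuousAt.2 fun t => ?_
    rw [ContinuousAt, tendsto_iff_dist_tendsto_zero]
    have h1 : Continuous fun s : ℝ => |cl s - cl t| * dist p q :=
      ((cl_cont.sub continuous_const).abs).mul continuous_const
    have h2 := h1.tendsto t
    rw [sub_self, abs_zero, zero_mul] at h2
    refine h2.congr fun s => ?_
    rw [hcd _ (cl_mem _) _ (cl_mem _)]
  have clcl : ∀ t, cl (cl t) = cl t := fun t => cl_of_mem (cl_mem t)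
  -- the cap
  set h : ℝ → ℝ := fun τ => max 0 (min 1 (min (1 + τ) (2 - τ))) with hh
  have hhc : Continuous h := by rw [hh]; fun_prop
  have hh1 : ∀ τ ∈ Icc (0 : ℝ) 1, h τ = 1 := by
    intro τ hτ
    simp only [hh]
    rw [min_eq_left (le_min (by linarith [hτ.1]) (by linarith [hτ.2])), max_eq_right zero_le_one]
  have hh0 : 0 ≤ min (0 : ℝ) 1 := by norm_num
  have hhn : ∀ τ, 0 ≤ h τ := fun τ => le_max_left _ _
  have hhl : ∀ τ, h τ ≤ 1 := fun τ => max_le zero_le_one (min_le_left _ _)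
  have hhm : h (-1) = 0 := by
    simp only [hh]
    rw [max_eq_left]
    exact (min_le_right _ _).trans ((min_le_left _ _).trans (by norm_num))
  have hh2 : h 2 = 0 := by
    simp only [hh]
    rw [max_eq_left]
    exact (min_le_right _ _).trans ((min_le_right _ _).trans (by norm_num))
  -- from `φ w (c t)` to `c t`
  set E0 : W → ℝ → ℝ → X := fun w τ s =>
    if s ≤ 1 / 2 then D w (min (2 * s) (h τ)) (cl τ) else D w (min (2 - 2 * s) (h τ)) (2 - cl τ)
    with hE0
  have hE0c : Continuous fun z : W × ℝ × ℝ => E0 z.1 z.2.1 z.2.2 := by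
    have hs : Continuous fun z : W × ℝ × ℝ => z.2.2 := continuous_snd.comp continuous_snd
    have hτ : Continuous fun z : W × ℝ × ℝ => z.2.1 := continuous_fst.comp continuous_snd
    refine Continuous.if_le ?_ ?_ hs continuous_const ?_
    · exact hDc.comp (continuous_fst.prodMk (((continuous_const.mul hs).min (hhc.comp hτ)).prodMk
        (cl_cont.comp hτ)))
    · exact hDc.comp (continuous_fst.prodMk
        (((continuous_const.sub (continuous_const.mul hs)).min (hhc.comp hτ)).prodMk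
        (continuous_const.sub (cl_cont.comp hτ))))
    · rintro ⟨w, τ, s⟩ hs2
      simp only at hs2 ⊢
      have e1 : min (2 * s) (h τ) = h τ := by
        rw [hs2]; exact min_eq_right (by linarith [hhl τ])
      have e2 : min (2 - 2 * s) (h τ) = h τ := by
        rw [hs2]; exact min_eq_right (by linarith [hhl τ])
      rw [e1, e2]
      rcases le_total τ 0 with h0 | h0
      · rw [cl_nonpos h0, sub_zero, hD3]
      · rcases le_total τ 1 with h1 | h1
        · rw [hh1 τ ⟨h0, h1⟩, hD4 w (cl τ), hD4 w (2 - cl τ)]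
        · rw [cl_ge h1]; norm_num
  have hE00 : ∀ w τ, E0 w τ 0 = c (cl τ) := by
    intro w τ
    simp only [hE0]
    rw [if_pos (by norm_num), mul_zero, min_eq_left (hhn τ), hD1 w _ (cl_mem τ)]
  have hE01 : ∀ w τ, E0 w τ 1 = φ w (c (cl τ)) := by
    intro w τ
    simp only [hE0]
    have : (2 : ℝ) - 2 * 1 = 0 := by norm_num
    rw [if_neg (by norm_num), this, min_eq_left (hhn τ), hD2 w _ (cl_mem τ)]
  have hDp : ∀ w, D w 0 0 = p := fun w => by rw [hD1 w 0 ⟨le_rfl, zero_le_one⟩, hc0]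
  have hDq : ∀ w, D w 0 1 = q := fun w => by rw [hD1 w 1 ⟨zero_le_one, le_rfl⟩, hc1]
  have hE0p : ∀ w, ∀ s ∈ Icc (0 : ℝ) 1, E0 w (-1) s = p := by
    intro w s hs
    simp only [hE0]
    rw [hhm, cl_nonpos (by norm_num : (-1 : ℝ) ≤ 0)]
    split_ifs with h1
    · rw [min_eq_right (by linarith [hs.1]), hDp]
    · rw [min_eq_right (by linarith [hs.2]), sub_zero, hD3, hDp]
  have hE0q : ∀ w, ∀ s ∈ Icc (0 : ℝ) 1, E0 w 2 s = q := by
    intro w s hs
    simp only [hE0]
    rw [hh2, cl_ge (by norm_num : (1 : ℝ) ≤ 2)]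
    split_ifs with h1
    · rw [min_eq_right (by linarith [hs.1]), hDq]
    · rw [min_eq_right (by linarith [hs.2])]
      norm_num
      exact hDq w
  set A : W → ℝ → ℝ → X := fun w t u => φ w (c (cl ((1 - u) * t + u * cl (3 * t - 1)))) with hA
  have hAc : Continuous fun z : W × ℝ × ℝ => A z.1 z.2.1 z.2.2 := by
    refine hφ.comp (continuous_fst.prodMk (hcc.comp ?_))
    have hs : Continuous fun z : W × ℝ × ℝ => z.2.2 := continuous_snd.comp continuous_snd
    have hτ : Continuous fun z : W × ℝ × ℝ => z.2.1 := continuous_fst.comp continuous_snd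
    exact ((continuous_const.sub hs).mul hτ).add
      (hs.mul (cl_cont.comp ((continuous_const.mul hτ).sub continuous_const)))
  refine ⟨fun w t s => if s ≤ 1 / 2 then A w t (cl (2 * s)) else
    E0 w (3 * t - 1) (1 - cl (2 * s - 1)), ?_, ?_, ?_, ?_⟩
  · have hs : Continuous fun z : W × ℝ × ℝ => z.2.2 := continuous_snd.comp continuous_snd
    have hτ : Continuous fun z : W × ℝ × ℝ => z.2.1 := continuous_fst.comp continuous_snd
    refine Continuous.if_le ?_ ?_ hs continuous_const ?_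
    · exact hAc.comp (continuous_fst.prodMk (hτ.prodMk (cl_cont.comp (continuous_const.mul hs))))
    · exact hE0c.comp (continuous_fst.prodMk (((continuous_const.mul hτ).sub
        continuous_const).prodMk (continuous_const.sub (cl_cont.comp
          ((continuous_const.mul hs).sub continuous_const)))))
    · rintro ⟨w, t, s⟩ hs2
      simp only at hs2 ⊢
      rw [hs2]
      have e1 : (2 : ℝ) * (1 / 2) = 1 := by norm_num
      have e2 : (1 : ℝ) - 1 = 0 := by norm_num
      rw [e1, cl_ge le_rfl, e2, cl_nonpos le_rfl, sub_zero, hE01]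
      simp only [hA]
      rw [sub_self, zero_mul, zero_add, one_mul, clcl]
  · intro w t ht
    show (if (0 : ℝ) ≤ 1 / 2 then A w t (cl (2 * 0)) else _) = _
    rw [if_pos (by norm_num), mul_zero, cl_nonpos le_rfl]
    simp only [hA]
    rw [sub_zero, one_mul, zero_mul, add_zero, cl_of_mem ht]
  · intro w w' t
    have e1 : (2 : ℝ) * 1 - 1 = 1 := by norm_num
    have e2 : ¬ (1 : ℝ) ≤ 1 / 2 := by norm_num
    show (if (1 : ℝ) ≤ 1 / 2 then A w t (cl (2 * 1)) else E0 w (3 * t - 1) (1 - cl (2 * 1 - 1))) =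
      (if (1 : ℝ) ≤ 1 / 2 then A w' t (cl (2 * 1)) else E0 w' (3 * t - 1) (1 - cl (2 * 1 - 1)))
    rw [if_neg e2, if_neg e2, e1, cl_ge le_rfl, sub_self, hE00, hE00]
  · intro w s
    have hm : ∀ u, 1 - cl u ∈ Icc (0 : ℝ) 1 := fun u =>
      ⟨by linarith [(cl_mem u).2], by linarith [(cl_mem u).1]⟩
    constructor
    · show (if s ≤ 1 / 2 then A w 0 (cl (2 * s)) else E0 w (3 * 0 - 1) (1 - cl (2 * s - 1))) = p
      split_ifs with h1
      · simp only [hA]
        have e3 : cl (3 * 0 - 1) = 0 := cl_nonpos (by norm_num)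
        rw [e3, mul_zero, mul_zero, add_zero, cl_nonpos le_rfl, hc0, hp]
      · have e3 : (3 : ℝ) * 0 - 1 = -1 := by norm_num
        rw [e3]; exact hE0p w _ (hm _)
    · show (if s ≤ 1 / 2 then A w 1 (cl (2 * s)) else E0 w (3 * 1 - 1) (1 - cl (2 * s - 1))) = q
      split_ifs with h1
      · simp only [hA]
        have e3 : cl (3 * 1 - 1) = 1 := cl_ge (by norm_num)
        rw [e3, mul_one, mul_one, sub_add_cancel, cl_ge le_rfl, hc1, hq]
      · have e3 : (3 : ℝ) * 1 - 1 = 2 := by norm_num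
        rw [e3]; exact hE0q w _ (hm _)

end Pool.Agent.L7h84.CA
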